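import Pool.Agent.Work.MP_0fc146_gt_helper24.FLIPb

/-!
# The certificates: Stmt_Role, Stmt_OChart, Stmt_HRel
-/

noncomputable section

open scoped Topology

namespace Pool.Agent.CircleShift

namespace FlipAux

/-! ## Certificates -/

/-- Flips. -/
def certFlips : Fin 13 → List (Fin 8 × Fin 3) := ![
  [(1, 2), (6, 1), (2, 1), (2, 2), (2, 2), (2, 0), (2, 2), (3, 1), (2, 0), (4, 0), (3, 1), (5, 0), (7, 1)],
  [(0, 2), (6, 1), (1, 1), (1, 2), (1, 2), (5, 1), (1, 0), (1, 2), (0, 1), (4, 1), (1, 1), (2, 1), (4, 2), (3, 1), (3, 0), (2, 0), (5, 0), (6, 2), (1, 0)],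
  [(0, 2), (5, 1), (1, 1), (1, 2), (1, 2), (0, 1), (4, 1), (4, 0), (3, 0), (1, 0), (2, 2), (4, 0)],
  [(0, 2), (6, 1), (1, 1), (1, 2), (1, 2), (0, 1), (1, 2), (5, 1), (5, 0), (0, 1), (2, 1), (2, 2), (7, 1), (0, 1), (4, 1), (6, 1), (3, 0), (5, 0), (6, 0)],
  [(0, 2), (0, 0), (6, 1), (1, 1), (1, 2), (1, 2), (1, 0), (1, 2), (1, 0), (5, 1), (1, 2), (2, 0), (5, 0), (3, 1), (5, 0), (4, 0), (3, 1), (1, 0), (2, 1)],
  [(0, 2), (5, 1), (1, 1), (1, 2), (1, 2), (0, 1), (4, 1), (3, 0), (3, 0), (5, 0), (1, 1), (6, 0), (7, 1)],
  [(0, 2), (6, 1), (1, 1), (1, 2), (1, 2), (0, 1), (0, 2), (1, 2), (5, 1), (4, 1), (6, 1), (0, 2), (2, 0), (4, 0), (0, 0), (0, 0), (3, 0), (4, 0)],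
  [(0, 2), (5, 1), (1, 1), (1, 2), (1, 2), (0, 1), (1, 2), (6, 1), (4, 1), (2, 2), (3, 0), (0, 2), (2, 0)],
  [(2, 2), (3, 0), (3, 0), (4, 1), (5, 0), (6, 1), (6, 2), (7, 0), (5, 1), (3, 1), (6, 1)],
  [(2, 2), (3, 1), (3, 2), (2, 0), (1, 2), (0, 2), (3, 0), (5, 0), (6, 0), (7, 0), (3, 0), (5, 1)],
  [(1, 2), (4, 1), (0, 0), (3, 0), (1, 0), (0, 2), (0, 2), (3, 0), (5, 0), (6, 0), (7, 1), (0, 0)],
  [(1, 2), (1, 0), (0, 2), (4, 1), (3, 0), (1, 1), (1, 2), (1, 0), (3, 0), (1, 1), (4, 0)],
  [(1, 2), (1, 0), (0, 2), (3, 0), (6, 1), (2, 1), (2, 2), (2, 2), (7, 2), (6, 1), (0, 0), (2, 0), (6, 1)]]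
/-- Triangle `t` of the target is triangle `(certMap t).1` of the flipped source, vertex `i` is
vertex `i + (certMap t).2`. -/
def certMap : Fin 13 → List (Fin 8 × Fin 3) := ![
  [(0, 0), (1, 2), (6, 0), (4, 2), (7, 1), (2, 0), (3, 0), (5, 0)],
  [(7, 1), (0, 2), (4, 2), (6, 1), (1, 2), (3, 0), (2, 0), (5, 0)],
  [(1, 1), (5, 1), (0, 0), (2, 1), (4, 2), (6, 2), (7, 0), (3, 0)],
  [(3, 1), (4, 1), (0, 1), (5, 1), (6, 2), (2, 2), (1, 2), (7, 1)],
  [(0, 2), (6, 0), (7, 0), (4, 2), (2, 1), (5, 0), (3, 0), (1, 0)],
  [(0, 0), (2, 0), (4, 0), (5, 2), (7, 1), (3, 0), (1, 0), (6, 0)],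
  [(2, 1), (5, 1), (6, 2), (0, 0), (1, 2), (7, 2), (3, 0), (4, 0)],
  [(3, 1), (4, 1), (5, 1), (0, 1), (2, 2), (1, 2), (6, 1), (7, 0)],
  [(0, 0), (1, 0), (2, 1), (4, 2), (6, 1), (7, 1), (3, 2), (5, 2)],
  [(1, 1), (2, 1), (4, 1), (0, 2), (5, 1), (6, 0), (7, 0), (3, 0)],
  [(2, 0), (0, 0), (1, 1), (4, 2), (7, 1), (3, 0), (5, 0), (6, 0)],
  [(2, 0), (4, 0), (1, 0), (0, 1), (3, 2), (5, 2), (6, 0), (7, 0)],
  [(1, 0), (6, 0), (4, 1), (0, 1), (2, 2), (3, 2), (5, 0), (7, 0)]]
/-- Frames. -/
def certFrame : Fin 13 → List (List (Fin 4 × Bool)) := ![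
  [[],
    [],
    [(0, true), (1, true), (2, true), (3, true), (2, true), (0, false)],
    [(0, true), (1, true), (2, true), (3, true), (2, true), (1, true), (2, true), (1, true), (2, true), (1, true), (2, true)],
    [],
    [(3, true), (0, true), (2, true), (1, true), (2, true), (0, false)],
    [(3, true), (0, true), (2, true), (1, true), (2, true), (1, true), (2, true), (1, true), (2, true), (1, true), (2, true)],
    [(3, true), (0, true), (2, true), (1, true), (2, true), (1, true), (2, true), (1, true), (2, true), (1, true), (2, true)]],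
  [[(0, false), (1, false), (2, false), (3, false)],
    [(1, true), (0, true), (1, true), (0, true), (1, true), (0, true), (1, true), (2, true), (1, true), (0, true), (1, true), (0, true), (1, true), (0, true), (1, true)],
    [(1, true), (0, true), (1, true), (0, true), (1, true), (0, true), (1, true), (2, true), (1, true), (0, true), (1, true), (0, true), (1, true), (0, true), (1, true), (0, true), (1, true), (2, true)],
    [(1, true), (0, true), (1, true), (0, true), (1, true), (0, true), (1, true), (2, true), (1, true), (0, true), (1, true), (0, true), (1, true), (0, true), (1, true), (0, true), (1, true), (2, true)],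
    [(0, false), (1, false), (2, false), (3, false)],
    [(1, true), (0, true), (1, true), (0, true), (1, true), (0, true), (1, true), (2, true), (1, true), (0, true), (1, true), (0, true), (1, true), (0, true), (1, true), (3, true), (2, true), (1, true), (0, true), (3, false)],
    [(1, true), (0, true), (1, true), (0, true), (1, true), (0, true), (1, true), (2, true), (1, true), (0, true), (1, true), (0, true), (1, true), (0, true), (1, true), (3, true), (2, true), (1, true), (0, true), (3, false)],
    [(1, true), (0, true), (1, true), (0, true), (1, true), (0, true), (1, true), (2, true), (1, true), (0, true), (1, true), (0, true), (1, true), (0, true), (1, true), (3, true), (2, true), (1, true), (0, true), (3, false)]],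
  [[(1, false), (0, false)],
    [(2, true)],
    [(2, true), (3, true), (1, true), (0, true), (1, true), (0, true), (1, true), (0, true), (1, true)],
    [(2, true), (3, true), (1, true), (0, true), (1, true), (0, true), (1, true), (0, true), (1, true)],
    [(1, false), (0, false)],
    [(2, true), (3, true), (1, true), (0, true), (1, true), (0, true), (1, true), (0, true), (1, true)],
    [(2, true), (3, true), (1, true), (0, true), (1, true), (0, true), (1, true), (0, true), (1, true)],
    [(2, true), (3, true), (1, true), (0, true), (1, true), (0, true), (1, true), (0, true), (1, true), (3, true), (1, true), (0, true), (2, true), (3, false), (2, false), (1, false), (0, false)]],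
  [[(1, true), (0, true), (1, true), (0, true), (1, true)],
    [(1, true), (0, true), (1, true), (0, true), (1, true), (0, true), (1, true), (2, true), (1, true), (0, true), (1, true), (0, true), (1, true), (0, true), (1, true)],
    [(1, true), (0, true), (1, true), (0, true), (1, true), (0, true), (1, true), (2, true), (1, true), (0, true), (1, true), (0, true), (1, true), (0, true), (1, true), (0, true), (1, true), (2, true)],
    [(1, true), (0, true), (1, true), (0, true), (1, true), (0, true), (1, true), (2, true), (1, true), (0, true), (1, true), (0, true), (1, true), (0, true), (1, true), (0, true), (1, true), (2, true), (3, true), (2, true), (1, true), (0, true), (1, true), (0, true), (1, true), (0, true), (1, true)],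
    [(1, true), (0, true), (1, true), (0, true), (1, true)],
    [(1, true), (0, true), (1, true), (0, true), (1, true), (0, true), (1, true), (2, true), (1, true), (0, true), (1, true), (0, true), (1, true), (0, true), (1, true), (0, true), (1, true), (2, true), (3, true), (2, true), (1, true), (0, true), (1, true), (0, true), (1, true), (0, true), (1, true)],
    [(1, true), (0, true), (1, true), (0, true), (1, true), (0, true), (1, true), (2, true), (1, true), (0, true), (1, true), (0, true), (1, true), (0, true), (1, true), (0, true), (1, true), (2, true), (3, true), (2, true), (1, true), (0, true), (1, true), (0, true), (1, true), (0, true), (1, true), (0, true), (1, true), (2, true), (1, true), (0, true), (1, true)],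
    [(1, true), (0, true), (1, true), (0, true), (1, true), (0, true), (1, true), (2, true), (1, true), (0, true), (1, true), (0, true), (1, true), (0, true), (1, true), (0, true), (1, true), (2, true), (3, true), (2, true), (1, true), (0, true), (1, true), (0, true), (1, true), (0, true), (1, true), (0, true), (1, true), (2, true), (1, true), (0, true), (1, true), (0, true), (1, true), (0, true), (1, true)]],
  [[],
    [(0, true), (1, true), (2, true), (3, true), (1, true)],
    [(0, true), (1, true), (2, true), (3, true), (1, true)],
    [(0, true), (1, true), (2, true), (3, true), (1, true), (0, true), (1, true), (0, true), (1, true), (0, true), (1, true), (2, true), (1, true), (0, true), (1, true), (0, true), (1, true), (0, true), (1, true), (0, true), (1, true), (2, true)],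
    [],
    [(3, true), (2, true), (1, true), (0, true), (1, true)],
    [(3, true), (2, true), (1, true), (0, true), (1, true), (0, true), (1, true), (0, true), (1, true), (0, true), (1, true), (2, true), (1, true), (0, true), (1, true), (0, true), (1, true), (0, true), (1, true), (0, true), (1, true), (2, true)],
    [(3, true), (2, true), (1, true), (0, true), (1, true), (0, true), (1, true), (0, true), (1, true), (0, true), (1, true), (2, true), (1, true), (0, true), (1, true), (0, true), (1, true), (0, true), (1, true), (0, true), (1, true), (2, true)]],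
  [[(1, true), (0, true), (1, true), (0, true), (1, true)],
    [(1, true), (0, true), (1, true), (0, true), (1, true)],
    [(1, true), (0, true), (1, true), (0, true), (1, true)],
    [(1, true), (0, true), (1, true), (0, true), (1, true), (0, true), (1, true), (2, true), (3, true), (1, true), (0, true), (1, true), (0, true), (1, true), (0, true), (1, true)],
    [(1, true), (0, true), (1, true), (0, true), (1, true)],
    [(1, true), (0, true), (1, true), (0, true), (1, true), (3, true), (1, true), (0, true), (2, true), (3, false), (2, false), (1, false), (0, false)],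
    [(1, true), (0, true), (1, true), (0, true), (1, true), (3, true), (1, true), (0, true), (2, true), (1, true), (0, true), (1, true), (0, true), (1, true), (0, true), (1, true)],
    [(1, true), (0, true), (1, true), (0, true), (1, true), (3, true), (1, true), (0, true), (2, true), (1, true), (0, true), (1, true), (0, true), (1, true), (0, true), (1, true)]],
  [[],
    [(3, true), (2, true), (1, true), (0, true), (1, true), (0, true), (1, true), (0, true), (1, true)],
    [(3, true), (2, true), (1, true), (0, true), (1, true), (0, true), (1, true), (0, true), (1, true), (0, true), (1, true), (2, true), (1, true), (0, true), (1, true), (0, true), (1, true), (0, true), (1, true)],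
    [(3, true), (2, true), (1, true), (0, true), (1, true), (0, true), (1, true), (0, true), (1, true), (0, true), (1, true), (2, true), (1, true), (0, true), (1, true), (0, true), (1, true), (0, true), (1, true)],
    [],
    [(3, true), (2, true), (1, true), (0, true), (1, true), (0, true), (1, true), (0, true), (1, true), (0, true), (1, true), (2, true), (1, true), (0, true), (1, true), (0, true), (1, true), (0, true), (1, true)],
    [(3, true), (2, true), (1, true), (0, true), (1, true), (0, true), (1, true), (0, true), (1, true), (0, true), (1, true), (2, true), (1, true), (0, true), (1, true), (0, true), (1, true), (0, true), (1, true), (3, true), (2, true), (1, true), (0, true), (3, false), (2, false), (1, false), (0, false)],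
    [(3, true), (2, true), (1, true), (0, true), (1, true), (0, true), (1, true), (0, true), (1, true), (0, true), (1, true), (2, true), (1, true), (0, true), (1, true), (0, true), (1, true), (0, true), (1, true), (3, true), (2, true), (1, true), (0, true), (3, false), (2, false), (1, false), (0, false)]],
  [[(1, true), (0, true), (1, true), (0, true), (1, true)],
    [(1, true), (0, true), (1, true), (0, true), (1, true)],
    [(1, true), (0, true), (1, true), (0, true), (1, true), (0, true), (1, true), (2, true)],
    [(1, true), (0, true), (1, true), (0, true), (1, true), (0, true), (1, true), (2, true), (3, true), (1, true), (0, true), (1, true), (0, true), (1, true), (0, true), (1, true)],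
    [(1, true), (0, true), (1, true), (0, true), (1, true)],
    [(1, true), (0, true), (1, true), (0, true), (1, true), (0, true), (1, true), (2, true), (3, true), (1, true), (0, true), (1, true)],
    [(1, true), (0, true), (1, true), (0, true), (1, true), (0, true), (1, true), (2, true), (3, true), (1, true), (0, true), (1, true), (0, true), (1, true), (0, true), (1, true)],
    [(1, true), (0, true), (1, true), (0, true), (1, true), (0, true), (1, true), (2, true), (3, true), (1, true), (0, true), (1, true), (0, true), (1, true), (0, true), (1, true)]],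
  [[],
    [],
    [],
    [(0, true), (1, true), (2, true), (3, true), (2, false), (1, false), (0, false)],
    [(2, false), (1, false), (0, false)],
    [(3, true), (1, true), (0, true), (2, true), (3, true), (1, true), (0, true), (2, true), (3, true), (1, true), (0, true), (1, false), (0, false)],
    [(3, true), (1, true), (0, true), (2, true), (3, true), (1, true), (0, true), (2, true), (3, true), (1, true), (0, true), (1, false), (0, false)],
    [(3, true), (1, true), (0, true), (2, true), (3, true), (1, true), (0, true), (2, true), (3, true), (1, true), (0, true), (1, false), (0, false)]],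
  [[],
    [],
    [],
    [(0, true), (1, true), (2, true), (3, true), (0, true), (1, true), (2, true), (3, true), (2, false), (1, false), (0, false)],
    [(0, true), (1, true), (2, true), (3, true), (2, false), (1, false), (0, false)],
    [(0, true), (1, true), (2, true), (3, true), (3, true), (1, true), (0, true), (1, false), (0, false)],
    [(0, true), (1, true), (2, true), (3, true), (3, true), (1, true), (0, true), (1, false), (0, false)],
    [(0, true), (1, true), (2, true), (3, true), (3, true), (1, true), (0, true), (1, false), (0, false)]],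
  [[(1, true), (2, true), (3, true)],
    [(1, true), (2, true), (3, true)],
    [(1, true), (2, true), (3, true)],
    [(1, true), (2, true), (3, true), (0, true), (1, true), (2, true), (3, true)],
    [(1, true), (2, true), (3, true)],
    [(1, true), (2, true), (3, true), (0, true), (1, true), (2, true), (3, true), (3, true), (0, true), (2, true), (1, true), (3, false), (2, false), (1, false), (0, false)],
    [(1, true), (2, true), (3, true), (0, true), (1, true), (2, true), (3, true), (3, true), (0, true), (2, true), (1, true), (3, false), (2, false), (1, false), (0, false)],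
    [(1, true), (2, true), (3, true), (0, true), (1, true), (2, true), (3, true), (3, true), (0, true), (2, true), (1, true), (3, false), (2, false), (1, false), (0, false)]],
  [[(1, true), (2, true), (3, true)],
    [(1, true), (2, true), (3, true)],
    [(1, true), (2, true), (3, true)],
    [(1, true), (2, true), (3, true), (0, true), (1, true), (2, true), (3, true)],
    [(1, true), (2, true), (3, true)],
    [(1, true), (2, true), (3, true), (0, true), (1, true), (2, true), (3, true), (0, true), (1, true), (2, true), (3, true)],
    [(1, true), (2, true), (3, true), (0, true), (1, true), (2, true), (3, true), (0, true), (1, true), (2, true), (3, true)],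
    [(1, true), (2, true), (3, true), (0, true), (1, true), (2, true), (3, true), (0, true), (1, true), (2, true), (3, true)]],
  [[],
    [],
    [(0, true), (1, true), (2, true), (3, true), (2, true), (1, true), (2, true), (0, false)],
    [(0, true), (1, true), (2, true), (3, true), (2, true), (1, true), (2, true), (1, true), (2, true), (1, true), (2, true)],
    [],
    [(0, true), (1, true), (2, true), (3, true), (2, true), (1, true), (2, true), (1, true), (2, true), (0, false)],
    [(0, true), (1, true), (2, true), (3, true), (2, true), (1, true), (2, true), (1, true), (2, true), (1, true), (2, true)],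
    [(0, true), (1, true), (2, true), (3, true), (2, true), (1, true), (2, true), (1, true), (2, true), (1, true), (2, true)]]]
def ocertFlips : List (Fin 8 × Fin 3) := [(2, 0), (3, 0), (0, 1), (1, 1), (5, 0), (0, 2)]
def ocertMap : List (Fin 8 × Fin 3) := [(3, 1), (2, 1), (6, 2), (1, 2), (4, 0), (7, 2), (0, 1), (5, 1)]
def ocertFrame : List (List (Fin 4 × Bool)) := [[(3, false), (2, false), (1, false), (0, false)],
  [(2, false), (1, false), (0, false)],
  [],
  [(1, false), (3, false)],
  [(1, false), (0, false)],
  [(1, false), (0, false)],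
  [(0, false)],
  [(3, false)]]

/-- Multiplication by `λ` of the positions of the target of a role. -/
def roleScale (r : Fin 13) (x : Pos) : Pos :=
  (2 * x.1 + 3 * x.2.1 + x.2.2 * (4 * (roleB r).1 + 6 * (roleB r).2),
    x.1 + 2 * x.2.1 + x.2.2 * (2 * (roleB r).1 + 4 * (roleB r).2), x.2.2)

def roleCheck (r : Fin 13) : Bool :=
  runT (endTab (roleSrc r)) ((endTab (roleSrc r)).1 + 2, (endTab (roleSrc r)).2) (certFlips r)
    (stri (roleSrc r)) fun T => relT T (stri (roleTgt r)) (roleScale r)
      (fun t => ((certMap r).getD t.val (0, 0)).1) (fun t => ((certMap r).getD t.val (0, 0)).2)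
      (fun t => (certFrame r).getD t.val []) (fun i => posW (roleSub r i))

/-- Multiplication by `λ⁻²`. -/
def oScale (x : Pos) : Pos := (7 * x.1 - 12 * x.2.1, 7 * x.2.1 - 4 * x.1, x.2.2)

def oCheck : Bool :=
  runT (-14, 8) (14, -8) ocertFlips stri0 fun T => relT T ostri oScale
      (fun t => (ocertMap.getD t.val (0, 0)).1) (fun t => (ocertMap.getD t.val (0, 0)).2)
      (fun t => ocertFrame.getD t.val []) psiTab

theorem roleCheck_true : ∀ r, roleCheck r = true := by decide +kernel
theorem oCheck_true : oCheck = true := by decide +kernel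

/-! ## The statements -/

theorem sqrt3_mul : √3 * √3 = (3 : ℝ) := Real.mul_self_sqrt (by norm_num)

theorem lam_pos : 0 < lam := by
  unfold lam
  have := Real.sqrt_nonneg 3
  linarith

theorem lam_inv : lam⁻¹ = 2 - √3 := by
  apply inv_eq_of_mul_eq_one_right
  unfold lam
  linear_combination -sqrt3_mul

/-- The positions of `otri yw`. -/
def ypTab (t : Fin 8) (i : Fin 3) : ℤ × ℤ := ![(0, 0), yTab t, yTab (t + 1)] i

/-- The identification of the two foliations of the octagon. -/
theorem hrel_rel : Rel (ostri.real 0) (otri yw) lam rhoT (Fin.revPerm) (fun _ => Equiv.swap 1 2)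
    (fun _ => 1) (fun _ => 0) := by
  have hB : ∀ t i, (otri yw).pos t i = z3 (ypTab t i) / 2 := by
    intro t i
    show ![0, yw t, yw (t + 1)] i = z3 (![(0, 0), yTab t, yTab (t + 1)] i) / 2
    fin_cases i
    · simp [z3]
    · rfl
    · rfl
  have hT : ∀ t i, (ostri.real 0).pos t i = z3 ((ostri.pos t i).1, (ostri.pos t i).2.1) / 2 := by
    intro t i
    rw [real_pos]
    unfold rv z3
    simp
  have hlz : ∀ x : ℤ × ℤ, lam * z3 x = z3 (2 * x.1 + 3 * x.2, x.1 + 2 * x.2) := by
    intro x
    unfold lam z3
    push_cast
    linear_combination (x.2 : ℝ) * sqrt3_mul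
  have hzs : ∀ x y : ℤ × ℤ, z3 x - z3 y = z3 (x.1 - y.1, x.2 - y.2) := by
    intro x y
    unfold z3
    push_cast
    ring
  have e1 : ∀ (t : Fin 8) (i : Fin 3), ((ostri.pos (Fin.revPerm t) (Equiv.swap 1 2 i)).1,
      (ostri.pos (Fin.revPerm t) (Equiv.swap 1 2 i)).2.1) =
      (2 * (ypTab t i).1 + 3 * (ypTab t i).2, (ypTab t i).1 + 2 * (ypTab t i).2) := by
    decide +kernel
  have e2 : ∀ (t : Fin 8) (i : Fin 3), ostri.nb (Fin.revPerm t) (Equiv.swap 1 2 i) =
      (Fin.revPerm (ostri.nb t i).1, Equiv.swap 1 2 (ostri.nb t i).2) := by
    decide +kernel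
  have e3 : ∀ (t : Fin 8) (i : Fin 3), FreeGroup.reduce (ostri.lab (Fin.revPerm t) (Equiv.swap 1 2 i)) =
      FreeGroup.reduce (substW rhoTTab (ostri.lab t i)) := by
    decide +kernel
  have e4 : ∀ (t : Fin 8) (i : Fin 3),
      ((ypTab (ostri.nb t i).1 ((ostri.nb t i).2 + 1)).1 - (ypTab t (i + 2)).1,
        (ypTab (ostri.nb t i).1 ((ostri.nb t i).2 + 1)).2 - (ypTab t (i + 2)).2) =
      ((ypTab (ostri.nb t i).1 ((ostri.nb t i).2 + 2)).1 - (ypTab t (i + 1)).1,
        (ypTab (ostri.nb t i).1 ((ostri.nb t i).2 + 2)).2 - (ypTab t (i + 1)).2) := by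
    decide +kernel
  have e5 : ∀ k : Fin 3, Equiv.swap 1 2 k + 2 = Equiv.swap 1 2 (k + 1) ∧
      Equiv.swap 1 2 k + 1 = Equiv.swap 1 2 (k + 2) := by decide
  have hpos : ∀ t i, (ostri.real 0).pos (Fin.revPerm t) (Equiv.swap 1 2 i) =
      lam * (otri yw).pos t i + 0 := by
    intro t i
    rw [hT, hB, e1, ← hlz]
    ring
  refine ⟨hpos, e2, ?_, ?_⟩
  · intro t i
    rw [one_mul, mul_one]
    show FreeGroup.mk _ = rhoT (FreeGroup.mk (ostri.lab t i))
    unfold rhoT
    rw [ofTabs_mk]
    exact FreeGroup.reduce.exact (e3 t i)
  · intro t i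
    unfold Tri.shift
    have h1 : (ostri.real 0).nb (Fin.revPerm t) (Equiv.swap 1 2 i) =
      (Fin.revPerm (ostri.nb t i).1, Equiv.swap 1 2 (ostri.nb t i).2) := e2 t i
    rw [h1]
    simp only
    rw [(e5 _).1, (e5 _).2, hpos, hpos, hB, hB, hB, hB]
    have h2 : (otri yw).nb t i = ostri.nb t i := rfl
    rw [h2]
    have h3 : z3 (ypTab (ostri.nb t i).1 ((ostri.nb t i).2 + 1)) - z3 (ypTab t (i + 2)) =
        z3 (ypTab (ostri.nb t i).1 ((ostri.nb t i).2 + 2)) - z3 (ypTab t (i + 1)) := by
      rw [hzs, hzs, e4]
    linear_combination (lam / 2) * h3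

end FlipAux

open FlipAux

theorem stmt_Role : Stmt_Role := by
  intro r s hs g
  obtain ⟨T', h1, h2⟩ := runT_spec (roleCheck_true r)
  have hs' : s ∈ Set.Icc (z3 (endTab (roleSrc r)) / 2)
      (z3 ((endTab (roleSrc r)).1 + 2, (endTab (roleSrc r)).2) / 2) := by
    obtain ⟨a, b⟩ := hs
    refine ⟨a, ?_⟩
    unfold lft at b
    unfold z3 at b ⊢
    push_cast
    linarith
  have hlam := lam_pos
  have hsc : ∀ x, rv (roleScale r x) s = lam * rv x (roleMap r s) := by
    intro x
    unfold rv roleScale roleMap roleT z3
    push_cast
    have h3 : lam * (s / lam) = s := by field_simp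
    have h4 : lam * ((x.1 + x.2.1 * √3) / 2 + x.2.2 * (s / lam + ((roleB r).1 + (roleB r).2 * √3)))
      = lam * ((x.1 + x.2.1 * √3) / 2 + x.2.2 * ((roleB r).1 + (roleB r).2 * √3)) +
        x.2.2 * (lam * (s / lam)) := by ring
    rw [h4, h3]
    unfold lam
    linear_combination (-(1 / 2) * (x.2.1 : ℝ) - x.2.2 * (roleB r).2) * sqrt3_mul
  have h5 := relT_spec h1 hlam.ne' hsc (σ := roleAut r) (fun w => ofTabs_mk _ _ _ w) g
  rw [← h2 s hs', abs_of_pos hlam] at h5
  show V (roleTgt r) (roleMap r s) g = lam⁻¹ * V (roleSrc r) s (roleAut r g)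
  unfold V
  rw [h5, ← mul_assoc, inv_mul_cancel₀ hlam.ne', one_mul]

theorem stmt_OChart : Stmt_OChart := by
  intro S hS g
  obtain ⟨T', h1, h2⟩ := runT_spec oCheck_true
  have hlam := lam_pos
  have hl2 : lam ^ 2 = 7 + 4 * √3 := by
    unfold lam; linear_combination sqrt3_mul
  have hl2' : (lam ^ 2)⁻¹ = 7 - 4 * √3 := by
    rw [← inv_pow, lam_inv]; linear_combination sqrt3_mul
  have hs' : S / lam ^ 2 ∈ Set.Icc (z3 (-14, 8) / 2) (z3 (14, -8) / 2) := by
    have h0 : 0 < 7 - 4 * √3 := by rw [← hl2']; positivity
    have h7 : S / lam ^ 2 = S * (7 - 4 * √3) := by rw [div_eq_mul_inv, hl2']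
    rw [h7]
    obtain ⟨h3, h4⟩ := abs_le.1 hS
    unfold z3
    constructor
    · push_cast; nlinarith
    · push_cast; nlinarith
  have hsc : ∀ x, rv (oScale x) (S / lam ^ 2) = (lam ^ 2)⁻¹ * rv x S := by
    intro x
    rw [div_eq_mul_inv]
    rw [hl2']
    unfold rv oScale
    push_cast
    linear_combination (2 * (x.2.1 : ℝ)) * sqrt3_mul
  have h5 := relT_spec h1 (inv_ne_zero (pow_ne_zero 2 hlam.ne')) hsc (σ := psiAut)
    (fun w => ofTabs_mk _ _ _ w) g
  rw [← h2 _ hs', abs_of_pos (by positivity)] at h5
  exact h5

theorem stmt_HRel : Stmt_HRel := by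
  intro g
  have hlam := lam_pos
  have h := hrel_rel.V hlam.ne' g
  rw [abs_of_pos hlam] at h
  show (otri yw).V g = lam⁻¹ * (ostri.real 0).V (rhoT g)
  rw [h, ← mul_assoc, inv_mul_cancel₀ hlam.ne', one_mul]

end Pool.Agent.CircleShift
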