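import Pool.Agent.Work.MP_0fc146_gt_h31.Interface

/-!
# Relabelling and flips of labelled triangulations
-/

noncomputable section

open scoped Topology Pointwise

namespace Pool.Agent.CircleShift.FlipAux

/-! ## Basic lemmas -/

theorem mem_uIcc_affine {x y q μ c : ℝ} (h : q ∈ Set.uIcc x y) :
    μ * q + c ∈ Set.uIcc (μ * x + c) (μ * y + c) := by
  rw [Set.mem_uIcc] at h ⊢
  rcases le_total 0 μ with hμ | hμ <;> rcases h with ⟨h1, h2⟩ | ⟨h1, h2⟩
  · left; constructor <;> nlinarith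
  · right; constructor <;> nlinarith
  · right; constructor <;> nlinarith
  · left; constructor <;> nlinarith

theorem perm3_edge : ∀ (p : Equiv.Perm (Fin 3)) (i : Fin 3),
    (p i + 1 = p (i + 1) ∧ p i + 2 = p (i + 2)) ∨ (p i + 1 = p (i + 2) ∧ p i + 2 = p (i + 1)) := by
  decide

/-- The set of costs. -/
def _root_.Pool.Agent.CircleShift.Tri.flCosts (T : Tri) (g : G) : Set ℝ := {r | ∃ h t q, T.Chain (h, t, q) (g * h, t, q) r}

theorem _root_.Pool.Agent.CircleShift.Tri.flV_eq (T : Tri) (g : G) : T.V g = sInf (T.flCosts g) := rfl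

/-! ## Relabelling -/

/-- The map `(h, t, q) ↦ (σ h * κ t, m t, μ q + c t)` identifies the triangulation `B` with the
triangulation `T`. -/
structure Rel (T B : Tri) (μ : ℝ) (σ : MulAut G) (m : Fin 8 ≃ Fin 8)
    (p : Fin 8 → Equiv.Perm (Fin 3)) (κ : Fin 8 → G) (c : Fin 8 → ℝ) : Prop where
  pos : ∀ t i, T.pos (m t) (p t i) = μ * B.pos t i + c t
  nb : ∀ t i, T.nb (m t) (p t i) = (m (B.nb t i).1, p (B.nb t i).1 (B.nb t i).2)
  lab : ∀ t i, κ t * T.lab (m t) (p t i) = σ (B.lab t i) * κ (B.nb t i).1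
  shift : ∀ t i, T.shift (m t) (p t i) = μ * B.shift t i + c (B.nb t i).1 - c t

theorem Rel.chain {T B : Tri} {μ : ℝ} {σ : MulAut G} {m : Fin 8 ≃ Fin 8}
    {p : Fin 8 → Equiv.Perm (Fin 3)} {κ : Fin 8 → G} {c : Fin 8 → ℝ} (R : Rel T B μ σ m p κ c)
    {x y : G × Fin 8 × ℝ} {r : ℝ} (h : B.Chain x y r) :
    T.Chain (σ x.1 * κ x.2.1, m x.2.1, μ * x.2.2 + c x.2.1)
      (σ y.1 * κ y.2.1, m y.2.1, μ * y.2.2 + c y.2.1) (|μ| * r) := by
  have hr : ∀ t q, B.InRange t q → T.InRange (m t) (μ * q + c t) := by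
    intro t q hq
    obtain ⟨i, j, h1, h2⟩ := hq
    rcases le_total 0 μ with hμ | hμ
    · refine ⟨p t i, p t j, ?_, ?_⟩
      · rw [R.pos]; nlinarith
      · rw [R.pos]; nlinarith
    · refine ⟨p t j, p t i, ?_, ?_⟩
      · rw [R.pos]; nlinarith
      · rw [R.pos]; nlinarith
  induction h with
  | slide h t q q' h1 h2 =>
    have h3 := Tri.Chain.slide (T := T) (σ h * κ t) (m t) (μ * q + c t) (μ * q' + c t) (hr t q h1)
      (hr t q' h2)
    have h4 : |μ * q + c t - (μ * q' + c t)| = |μ| * |q - q'| := by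
      rw [← abs_mul]; congr 1; ring
    rw [h4] at h3
    exact h3
  | cross h t i q h1 =>
    have h2 : T.InEdge (m t) (p t i) (μ * q + c t) := by
      unfold Tri.InEdge at h1 ⊢
      have h3 := mem_uIcc_affine (μ := μ) (c := c t) h1
      rw [← R.pos, ← R.pos] at h3
      rcases perm3_edge (p t) i with ⟨e1, e2⟩ | ⟨e1, e2⟩
      · rw [e1, e2]; exact h3
      · rw [e1, e2, Set.uIcc_comm]; exact h3
    have h3 := Tri.Chain.cross (T := T) (σ h * κ t) (m t) (p t i) (μ * q + c t) h2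
    have e1 : σ h * κ t * T.lab (m t) (p t i) = σ (h * B.lab t i) * κ (B.nb t i).1 := by
      rw [mul_assoc, R.lab, map_mul, mul_assoc]
    have e2 : μ * q + c t + T.shift (m t) (p t i) =
        μ * (q + B.shift t i) + c (B.nb t i).1 := by
      rw [R.shift]; ring
    rw [e1, e2, R.nb] at h3
    simpa using h3
  | trans _ _ ih1 ih2 =>
    have h3 := Tri.Chain.trans ih1 ih2
    rw [mul_add]
    exact h3

theorem Rel.symm {T B : Tri} {μ : ℝ} {σ : MulAut G} {m : Fin 8 ≃ Fin 8}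
    {p : Fin 8 → Equiv.Perm (Fin 3)} {κ : Fin 8 → G} {c : Fin 8 → ℝ} (R : Rel T B μ σ m p κ c)
    (hμ : μ ≠ 0) :
    Rel B T μ⁻¹ σ⁻¹ m.symm (fun t => (p (m.symm t)).symm)
      (fun t => (σ⁻¹ (κ (m.symm t)))⁻¹) (fun t => - μ⁻¹ * c (m.symm t)) := by
  have hnb : ∀ t i, B.nb (m.symm t) ((p (m.symm t)).symm i) =
      (m.symm (T.nb t i).1, (p (m.symm (T.nb t i).1)).symm (T.nb t i).2) := by
    intro t i
    have h := R.nb (m.symm t) ((p (m.symm t)).symm i)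
    rw [Equiv.apply_symm_apply, Equiv.apply_symm_apply] at h
    rw [h]
    simp
  have hnb1 : ∀ t i, (B.nb (m.symm t) ((p (m.symm t)).symm i)).1 = m.symm (T.nb t i).1 := by
    intro t i; rw [hnb]
  refine ⟨?_, hnb, ?_, ?_⟩
  · intro t i
    have h := R.pos (m.symm t) ((p (m.symm t)).symm i)
    rw [Equiv.apply_symm_apply, Equiv.apply_symm_apply] at h
    rw [h]
    field_simp
    ring
  · intro t i
    have h := R.lab (m.symm t) ((p (m.symm t)).symm i)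
    rw [Equiv.apply_symm_apply, Equiv.apply_symm_apply, hnb1] at h
    have h1 := congrArg (σ⁻¹ : MulAut G) h
    rw [map_mul, map_mul, MulAut.inv_apply_self] at h1
    show (σ⁻¹ (κ (m.symm t)))⁻¹ * B.lab (m.symm t) ((p (m.symm t)).symm i) =
      σ⁻¹ (T.lab t i) * (σ⁻¹ (κ (m.symm (T.nb t i).1)))⁻¹
    rw [inv_mul_eq_iff_eq_mul, ← mul_assoc, h1, mul_assoc, mul_inv_cancel, mul_one]
  · intro t i
    have h := R.shift (m.symm t) ((p (m.symm t)).symm i)
    rw [Equiv.apply_symm_apply, Equiv.apply_symm_apply, hnb1] at h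
    rw [h]
    field_simp
    ring

theorem Rel.costs {T B : Tri} {μ : ℝ} {σ : MulAut G} {m : Fin 8 ≃ Fin 8}
    {p : Fin 8 → Equiv.Perm (Fin 3)} {κ : Fin 8 → G} {c : Fin 8 → ℝ} (R : Rel T B μ σ m p κ c)
    {g : G} {r : ℝ} (h : r ∈ B.flCosts g) : |μ| * r ∈ T.flCosts (σ g) := by
  obtain ⟨h, t, q, h1⟩ := h
  have h2 := R.chain h1
  refine ⟨σ h * κ t, m t, μ * q + c t, ?_⟩
  simpa [map_mul, mul_assoc] using h2

/-- The relabelling lemma. -/
theorem Rel.V {T B : Tri} {μ : ℝ} {σ : MulAut G} {m : Fin 8 ≃ Fin 8}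
    {p : Fin 8 → Equiv.Perm (Fin 3)} {κ : Fin 8 → G} {c : Fin 8 → ℝ} (R : Rel T B μ σ m p κ c)
    (hμ : μ ≠ 0) (g : G) : T.V (σ g) = |μ| * B.V g := by
  have h1 : T.flCosts (σ g) = |μ| • B.flCosts g := by
    ext r
    rw [Set.mem_smul_set]
    constructor
    · intro h
      have h2 := (R.symm hμ).costs h
      rw [MulAut.inv_apply_self] at h2
      refine ⟨_, h2, ?_⟩
      rw [smul_eq_mul, ← mul_assoc, abs_inv, mul_inv_cancel₀ (abs_ne_zero.mpr hμ), one_mul]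
    · rintro ⟨r', h2, rfl⟩
      exact R.costs h2
  rw [Tri.flV_eq, Tri.flV_eq, h1, Real.sInf_smul_of_nonneg (abs_nonneg μ), smul_eq_mul]

/-! ## Simulation -/

/-- The triangulation is consistent: the gluings preserve the lengths of the edges. -/
def _root_.Pool.Agent.CircleShift.Tri.flCons (T : Tri) : Prop :=
  ∀ t i, T.pos t (i + 2) + T.shift t i = T.pos (T.nb t i).1 ((T.nb t i).2 + 1)

theorem _root_.Pool.Agent.CircleShift.Tri.InEdge.flInRange {T : Tri} {t : Fin 8} {i : Fin 3} {q : ℝ} (h : T.InEdge t i q) :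
    T.InRange t q := by
  unfold Tri.InEdge at h
  rw [Set.mem_uIcc] at h
  rcases h with ⟨h1, h2⟩ | ⟨h1, h2⟩
  · exact ⟨_, _, h1, h2⟩
  · exact ⟨_, _, h1, h2⟩

theorem _root_.Pool.Agent.CircleShift.Tri.flCons.inEdge {T : Tri} (hT : T.flCons) {t : Fin 8} {i : Fin 3} {q : ℝ}
    (h : T.InEdge t i q) : T.InEdge (T.nb t i).1 (T.nb t i).2 (q + T.shift t i) := by
  unfold Tri.InEdge at h ⊢
  rw [← hT t i]
  have h1 := mem_uIcc_affine (μ := 1) (c := T.shift t i) h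
  have e1 : T.pos (T.nb t i).1 ((T.nb t i).2 + 2) = 1 * T.pos t (i + 1) + T.shift t i := by
    unfold Tri.shift; ring
  rw [Set.uIcc_comm, e1]
  simpa using h1

/-- All leaves on a chain are in range. -/
theorem _root_.Pool.Agent.CircleShift.Tri.Chain.flInRange {T : Tri} (hT : T.flCons) {x y : G × Fin 8 × ℝ} {r : ℝ}
    (h : T.Chain x y r) : T.InRange x.2.1 x.2.2 ∧ T.InRange y.2.1 y.2.2 := by
  induction h with
  | slide h t q q' h1 h2 => exact ⟨h1, h2⟩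
  | cross h t i q h1 => exact ⟨h1.flInRange, (hT.inEdge h1).flInRange⟩
  | trans _ _ ih1 ih2 => exact ⟨ih1.1, ih2.2⟩

/-- The hypotheses of the simulation of `T` by `T'`: the triangulations differ only in the
triangles `v` with `Q v`, and the half edges with `I` are inside of `Q`. -/
structure Sim (T T' : Tri) (Q : Fin 8 → Prop) (I : Fin 8 × Fin 3 → Prop)
    (e : Fin 8 × Fin 3 → Fin 8 × Fin 3) : Prop where
  cons : T.flCons
  inner : ∀ v k, I (v, k) → T.lab v k = 1 ∧ T.shift v k = 0 ∧ Q v ∧ Q (T.nb v k).1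
  outer : ∀ v k, ¬ I (v, k) → ((e (v, k)).1 = v ∨ (Q (e (v, k)).1 ∧ Q v)) ∧
    T'.pos (e (v, k)).1 ((e (v, k)).2 + 1) = T.pos v (k + 1) ∧
    T'.pos (e (v, k)).1 ((e (v, k)).2 + 2) = T.pos v (k + 2) ∧
    T'.nb (e (v, k)).1 (e (v, k)).2 = e (T.nb v k) ∧
    T'.lab (e (v, k)).1 (e (v, k)).2 = T.lab v k ∧ ¬ I (T.nb v k)
  range : ∀ v q, Q v → T.InRange v q → ∃ v', Q v' ∧ T'.InRange v' q
  same : ∀ v, ¬ Q v → T'.pos v = T.pos v
  slide : ∀ h v v' q q', Q v → Q v' → T'.InRange v q → T'.InRange v' q' →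
    T'.Chain (h, v, q) (h, v', q') |q - q'|

theorem Sim.chain {T T' : Tri} {Q : Fin 8 → Prop} {I : Fin 8 × Fin 3 → Prop}
    {e : Fin 8 × Fin 3 → Fin 8 × Fin 3} (R : Sim T T' Q I e) {x y : G × Fin 8 × ℝ} {r : ℝ}
    (h : T.Chain x y r) : ∀ v v', (v = x.2.1 ∨ (Q v ∧ Q x.2.1)) → (v' = y.2.1 ∨ (Q v' ∧ Q y.2.1)) →
      T'.InRange v x.2.2 → T'.InRange v' y.2.2 →
      T'.Chain (x.1, v, x.2.2) (y.1, v', y.2.2) r := by
  -- the slides in `T'`
  have hs : ∀ (h : G) (v v' w : Fin 8) (q q' : ℝ), (v = w ∨ (Q v ∧ Q w)) → (v' = w ∨ (Q v' ∧ Q w)) →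
      T'.InRange v q → T'.InRange v' q' → T'.Chain (h, v, q) (h, v', q') |q - q'| := by
    intro h v v' w q q' h1 h2 h3 h4
    by_cases hw : Q w
    · have hv : Q v := by
        rcases h1 with rfl | h1
        · exact hw
        · exact h1.1
      have hv' : Q v' := by
        rcases h2 with rfl | h2
        · exact hw
        · exact h2.1
      exact R.slide h v v' q q' hv hv' h3 h4
    · rcases h1 with rfl | h1
      · rcases h2 with rfl | h2
        · exact Tri.Chain.slide h v' q q' h3 h4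
        · exact absurd h2.2 hw
      · exact absurd h1.2 hw
  induction h with
  | slide h t q q' h1 h2 =>
    intro v v' hv hv' h3 h4
    exact hs h v v' t q q' hv hv' h3 h4
  | cross h t i q h1 =>
    intro v v' hv hv' h3 h4
    simp only at hv hv' h3 h4 ⊢
    by_cases hI : I (t, i)
    · obtain ⟨e1, e2, e3, e4⟩ := R.inner t i hI
      rw [e1, e2, mul_one, add_zero]
      rw [e2, add_zero] at h4
      have hv1 : Q v := by
        rcases hv with rfl | hv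
        · exact e3
        · exact hv.1
      have hv1' : Q v' := by
        rcases hv' with rfl | hv'
        · exact e4
        · exact hv'.1
      have h5 := R.slide h v v' q q hv1 hv1' h3 h4
      simpa using h5
    · obtain ⟨e1, e2, e3, e4, e5, e6⟩ := R.outer t i hI
      obtain ⟨f1, f2, f3, -⟩ := R.outer (T.nb t i).1 (T.nb t i).2 e6
      have hsh : T'.shift (e (t, i)).1 (e (t, i)).2 = T.shift t i := by
        unfold Tri.shift
        rw [e4, e2, f3]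
      have hE : T'.InEdge (e (t, i)).1 (e (t, i)).2 q := by
        unfold Tri.InEdge at h1 ⊢
        rw [e2, e3]; exact h1
      have hE' : T'.InRange (T'.nb (e (t, i)).1 (e (t, i)).2).1 (q + T.shift t i) := by
        have h5 := R.cons.inEdge h1
        unfold Tri.InEdge at h5
        rw [e4]
        apply Tri.InEdge.flInRange (i := (e (T.nb t i)).2)
        unfold Tri.InEdge
        rw [f2, f3]; exact h5
      have hm := Tri.Chain.cross (T := T') h (e (t, i)).1 (e (t, i)).2 q hE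
      rw [hsh, e5] at hm
      have h5 := hs h v (e (t, i)).1 t q q hv e1 h3 hE.flInRange
      have h6 := hs (h * T.lab t i) (T'.nb (e (t, i)).1 (e (t, i)).2).1 v' (T.nb t i).1
        (q + T.shift t i) (q + T.shift t i) (by rw [e4]; exact f1) hv' hE' h4
      have h7 := (h5.trans hm).trans h6
      simpa using h7
  | trans h1 h2 ih1 ih2 =>
    rename_i x y z r r'
    intro v v' hv hv' h3 h4
    -- a leaf in the middle
    have hy := (h1.flInRange R.cons).2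
    obtain ⟨w, hw, hw'⟩ : ∃ w, (w = y.2.1 ∨ (Q w ∧ Q y.2.1)) ∧ T'.InRange w y.2.2 := by
      by_cases hQ : Q y.2.1
      · obtain ⟨w, h5, h6⟩ := R.range _ _ hQ hy
        exact ⟨w, Or.inr ⟨h5, hQ⟩, h6⟩
      · refine ⟨y.2.1, Or.inl rfl, ?_⟩
        obtain ⟨i, j, h5, h6⟩ := hy
        exact ⟨i, j, by rw [R.same _ hQ]; exact h5, by rw [R.same _ hQ]; exact h6⟩
    exact (ih1 v w hv hw h3 hw').trans (ih2 w v' hw hv' hw' h4)

theorem Sim.costs {T T' : Tri} {Q : Fin 8 → Prop} {I : Fin 8 × Fin 3 → Prop}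
    {e : Fin 8 × Fin 3 → Fin 8 × Fin 3} (R : Sim T T' Q I e) {g : G} {r : ℝ}
    (h : r ∈ T.flCosts g) : r ∈ T'.flCosts g := by
  obtain ⟨h, t, q, h1⟩ := h
  have hy := (h1.flInRange R.cons).1
  obtain ⟨w, hw, hw'⟩ : ∃ w, (w = t ∨ (Q w ∧ Q t)) ∧ T'.InRange w q := by
    by_cases hQ : Q t
    · obtain ⟨w, h5, h6⟩ := R.range _ _ hQ hy
      exact ⟨w, Or.inr ⟨h5, hQ⟩, h6⟩
    · refine ⟨t, Or.inl rfl, ?_⟩
      obtain ⟨i, j, h5, h6⟩ := hy
      exact ⟨i, j, by rw [R.same _ hQ]; exact h5, by rw [R.same _ hQ]; exact h6⟩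
  exact ⟨h, w, q, R.chain h1 w w hw hw hw' hw'⟩

/-! ## Two triangles -/

/-- Two triangles with a common edge. -/
structure TwoTri (T : Tri) (t u : Fin 8) (i j : Fin 3) (P X Y R : ℝ) : Prop where
  nt : T.nb t i = (u, j)
  nu : T.nb u j = (t, i)
  lt : T.lab t i = 1
  lu : T.lab u j = 1
  p1 : T.pos t i = P
  p2 : T.pos t (i + 1) = X
  p3 : T.pos t (i + 2) = Y
  r1 : T.pos u j = R
  r2 : T.pos u (j + 1) = Y
  r3 : T.pos u (j + 2) = X

theorem fin3_cases : ∀ i k : Fin 3, k = i ∨ k = i + 1 ∨ k = i + 2 := by decide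

theorem inRange_iff {T : Tri} {t : Fin 8} (i : Fin 3) {q : ℝ} : T.InRange t q ↔
    (T.pos t i ≤ q ∨ T.pos t (i + 1) ≤ q ∨ T.pos t (i + 2) ≤ q) ∧
    (q ≤ T.pos t i ∨ q ≤ T.pos t (i + 1) ∨ q ≤ T.pos t (i + 2)) := by
  constructor
  · rintro ⟨a, b, h1, h2⟩
    constructor
    · rcases fin3_cases i a with rfl | rfl | rfl
      · exact Or.inl h1
      · exact Or.inr (Or.inl h1)
      · exact Or.inr (Or.inr h1)
    · rcases fin3_cases i b with rfl | rfl | rfl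
      · exact Or.inl h2
      · exact Or.inr (Or.inl h2)
      · exact Or.inr (Or.inr h2)
  · rintro ⟨h1, h2⟩
    obtain ⟨a, ha⟩ : ∃ a, T.pos t a ≤ q := by
      rcases h1 with h1 | h1 | h1
      exacts [⟨_, h1⟩, ⟨_, h1⟩, ⟨_, h1⟩]
    obtain ⟨b, hb⟩ : ∃ b, q ≤ T.pos t b := by
      rcases h2 with h2 | h2 | h2
      exacts [⟨_, h2⟩, ⟨_, h2⟩, ⟨_, h2⟩]
    exact ⟨a, b, ha, hb⟩

theorem TwoTri.range_t {T : Tri} {t u : Fin 8} {i j : Fin 3} {P X Y R : ℝ}
    (H : TwoTri T t u i j P X Y R) {q : ℝ} : T.InRange t q ↔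
    (P ≤ q ∨ X ≤ q ∨ Y ≤ q) ∧ (q ≤ P ∨ q ≤ X ∨ q ≤ Y) := by
  rw [inRange_iff i, H.p1, H.p2, H.p3]

theorem TwoTri.range_u {T : Tri} {t u : Fin 8} {i j : Fin 3} {P X Y R : ℝ}
    (H : TwoTri T t u i j P X Y R) {q : ℝ} : T.InRange u q ↔
    (R ≤ q ∨ Y ≤ q ∨ X ≤ q) ∧ (q ≤ R ∨ q ≤ Y ∨ q ≤ X) := by
  rw [inRange_iff j, H.r1, H.r2, H.r3]

theorem TwoTri.swap {T : Tri} {t u : Fin 8} {i j : Fin 3} {P X Y R : ℝ}
    (H : TwoTri T t u i j P X Y R) : TwoTri T u t j i R Y X P :=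
  ⟨H.nu, H.nt, H.lu, H.lt, H.r1, H.r2, H.r3, H.p1, H.p2, H.p3⟩

theorem TwoTri.cross {T : Tri} {t u : Fin 8} {i j : Fin 3} {P X Y R : ℝ}
    (H : TwoTri T t u i j P X Y R) {q : ℝ} (h : G) (hq : q ∈ Set.uIcc X Y) :
    T.Chain (h, t, q) (h, u, q) 0 := by
  have h1 : T.InEdge t i q := by
    unfold Tri.InEdge
    rw [H.p2, H.p3]; exact hq
  have h2 := Tri.Chain.cross (T := T) h t i q h1
  have h3 : T.shift t i = 0 := by
    unfold Tri.shift
    rw [H.nt, H.p2]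
    simp only
    rw [H.r3, sub_self]
  rw [H.lt, h3, H.nt] at h2
  simpa using h2

/-- The middle point. -/
theorem exists_mid {P X Y R q q' : ℝ} (h1 : (P ≤ q ∨ X ≤ q ∨ Y ≤ q) ∧ (q ≤ P ∨ q ≤ X ∨ q ≤ Y))
    (h2 : (R ≤ q' ∨ Y ≤ q' ∨ X ≤ q') ∧ (q' ≤ R ∨ q' ≤ Y ∨ q' ≤ X))
    (c1 : P ≤ X ∨ P ≤ Y ∨ R ≤ X ∨ R ≤ Y) (c2 : X ≤ P ∨ Y ≤ P ∨ X ≤ R ∨ Y ≤ R) :
    ∃ p, p ∈ Set.uIcc X Y ∧ p ∈ Set.uIcc q q' := by
  have h3 : min q q' ≤ max X Y := by
    by_contra hlt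
    push Not at hlt
    rw [lt_min_iff, max_lt_iff, max_lt_iff] at hlt
    obtain ⟨⟨a1, a2⟩, a3, a4⟩ := hlt
    have a5 : q ≤ P := by rcases h1.2 with h | h | h <;> [exact h; linarith; linarith]
    have a6 : q' ≤ R := by rcases h2.2 with h | h | h <;> [exact h; linarith; linarith]
    rcases c1 with h | h | h | h <;> linarith
  have h4 : min X Y ≤ max q q' := by
    by_contra hlt
    push Not at hlt
    rw [lt_min_iff, max_lt_iff, max_lt_iff] at hlt
    obtain ⟨⟨a1, a2⟩, a3, a4⟩ := hlt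
    have a5 : P ≤ q := by rcases h1.1 with h | h | h <;> [exact h; linarith; linarith]
    have a6 : R ≤ q' := by rcases h2.1 with h | h | h <;> [exact h; linarith; linarith]
    rcases c2 with h | h | h | h <;> linarith
  refine ⟨max (min q q') (min X Y), ?_, ?_⟩
  · exact ⟨le_max_right _ _, max_le h3 min_le_max⟩
  · exact ⟨le_max_left _ _, max_le min_le_max h4⟩

theorem abs_add_of_mem_uIcc {p q q' : ℝ} (h : p ∈ Set.uIcc q q') :
    |q - p| + |p - q'| = |q - q'| := by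
  rw [Set.mem_uIcc] at h
  rcases h with ⟨h1, h2⟩ | ⟨h1, h2⟩
  · rw [abs_of_nonpos (by linarith), abs_of_nonpos (by linarith), abs_of_nonpos (by linarith)]
    ring
  · rw [abs_of_nonneg (by linarith), abs_of_nonneg (by linarith), abs_of_nonneg (by linarith)]
    ring

theorem TwoTri.slide {T : Tri} {t u : Fin 8} {i j : Fin 3} {P X Y R : ℝ}
    (H : TwoTri T t u i j P X Y R)
    (c1 : P ≤ X ∨ P ≤ Y ∨ R ≤ X ∨ R ≤ Y) (c2 : X ≤ P ∨ Y ≤ P ∨ X ≤ R ∨ Y ≤ R)
    (h : G) (v v' : Fin 8) (q q' : ℝ) (hv : v = t ∨ v = u) (hv' : v' = t ∨ v' = u)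
    (hq : T.InRange v q) (hq' : T.InRange v' q') : T.Chain (h, v, q) (h, v', q') |q - q'| := by
  have key : ∀ {t u : Fin 8} {i j : Fin 3} {P X Y R : ℝ}, TwoTri T t u i j P X Y R →
      (P ≤ X ∨ P ≤ Y ∨ R ≤ X ∨ R ≤ Y) → (X ≤ P ∨ Y ≤ P ∨ X ≤ R ∨ Y ≤ R) →
      T.InRange t q → T.InRange u q' → T.Chain (h, t, q) (h, u, q') |q - q'| := by
    intro t u i j P X Y R H c1 c2 h1 h2
    have h1' := H.range_t.1 h1
    have h2' := H.range_u.1 h2
    obtain ⟨p, hp, hp'⟩ := exists_mid h1' h2' c1 c2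
    have hpt : T.InRange t p := by
      rw [H.range_t]
      rw [Set.mem_uIcc] at hp
      rcases hp with ⟨a, b⟩ | ⟨a, b⟩
      · exact ⟨Or.inr (Or.inl a), Or.inr (Or.inr b)⟩
      · exact ⟨Or.inr (Or.inr a), Or.inr (Or.inl b)⟩
    have hpu : T.InRange u p := by
      rw [H.range_u]
      rw [Set.mem_uIcc] at hp
      rcases hp with ⟨a, b⟩ | ⟨a, b⟩
      · exact ⟨Or.inr (Or.inr a), Or.inr (Or.inl b)⟩
      · exact ⟨Or.inr (Or.inl a), Or.inr (Or.inr b)⟩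
    have s1 := Tri.Chain.slide (T := T) h t q p h1 hpt
    have s2 := H.cross h hp
    have s3 := Tri.Chain.slide (T := T) h u p q' hpu h2
    have s4 := (s1.trans s2).trans s3
    rw [add_zero, abs_add_of_mem_uIcc hp'] at s4
    exact s4
  rcases hv with rfl | rfl <;> rcases hv' with rfl | rfl
  · exact Tri.Chain.slide _ _ _ _ hq hq'
  · exact key H c1 c2 hq hq'
  · exact key H.swap (by tauto) (by tauto) hq hq'
  · exact Tri.Chain.slide _ _ _ _ hq hq'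

theorem TwoTri.cover {T : Tri} {t u : Fin 8} {i j : Fin 3} {P X Y R : ℝ}
    (H : TwoTri T t u i j P X Y R) {q : ℝ} (h1 : P ≤ q ∨ X ≤ q ∨ Y ≤ q ∨ R ≤ q)
    (h2 : q ≤ P ∨ q ≤ X ∨ q ≤ Y ∨ q ≤ R) : ∃ v, (v = t ∨ v = u) ∧ T.InRange v q := by
  have h3 : T.InRange t q ∨ T.InRange u q := by
    rw [H.range_t, H.range_u]
    rcases le_total X q with h | h <;> tauto
  rcases h3 with h3 | h3
  · exact ⟨t, Or.inl rfl, h3⟩
  · exact ⟨u, Or.inr rfl, h3⟩

/-! ## Flips -/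

/-- `T'` is obtained from `T` by the flip of the common edge of `t` and `u`; the four positions are
`A, B, C, D`, `e` and `e'` are the maps of the outer half edges. -/
structure Flip (T T' : Tri) (t u : Fin 8) (i j : Fin 3) (A B C D : ℝ)
    (e e' : Fin 8 × Fin 3 → Fin 8 × Fin 3) : Prop where
  cons : T.flCons
  cons' : T'.flCons
  two : TwoTri T t u i j A B D C
  two' : TwoTri T' t u 1 2 B C A D
  c1 : A ≤ B ∨ A ≤ D ∨ C ≤ B ∨ C ≤ D
  c2 : B ≤ A ∨ D ≤ A ∨ B ≤ C ∨ D ≤ C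
  c3 : B ≤ C ∨ B ≤ A ∨ D ≤ C ∨ D ≤ A
  c4 : C ≤ B ∨ A ≤ B ∨ C ≤ D ∨ A ≤ D
  same : ∀ v, ¬ (v = t ∨ v = u) → T'.pos v = T.pos v
  outer : ∀ v k, ¬ ((v, k) = (t, i) ∨ (v, k) = (u, j)) →
    ((e (v, k)).1 = v ∨ (((e (v, k)).1 = t ∨ (e (v, k)).1 = u) ∧ (v = t ∨ v = u))) ∧
    T'.pos (e (v, k)).1 ((e (v, k)).2 + 1) = T.pos v (k + 1) ∧
    T'.pos (e (v, k)).1 ((e (v, k)).2 + 2) = T.pos v (k + 2) ∧
    T'.nb (e (v, k)).1 (e (v, k)).2 = e (T.nb v k) ∧
    T'.lab (e (v, k)).1 (e (v, k)).2 = T.lab v k ∧ ¬ (T.nb v k = (t, i) ∨ T.nb v k = (u, j))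
  outer' : ∀ v k, ¬ ((v, k) = (t, 1) ∨ (v, k) = (u, 2)) →
    ((e' (v, k)).1 = v ∨ (((e' (v, k)).1 = t ∨ (e' (v, k)).1 = u) ∧ (v = t ∨ v = u))) ∧
    T.pos (e' (v, k)).1 ((e' (v, k)).2 + 1) = T'.pos v (k + 1) ∧
    T.pos (e' (v, k)).1 ((e' (v, k)).2 + 2) = T'.pos v (k + 2) ∧
    T.nb (e' (v, k)).1 (e' (v, k)).2 = e' (T'.nb v k) ∧
    T.lab (e' (v, k)).1 (e' (v, k)).2 = T'.lab v k ∧ ¬ (T'.nb v k = (t, 1) ∨ T'.nb v k = (u, 2))

theorem TwoTri.inner {T : Tri} {t u : Fin 8} {i j : Fin 3} {P X Y R : ℝ}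
    (H : TwoTri T t u i j P X Y R) (v : Fin 8) (k : Fin 3)
    (h : (v, k) = (t, i) ∨ (v, k) = (u, j)) : T.lab v k = 1 ∧ T.shift v k = 0 ∧
      (v = t ∨ v = u) ∧ ((T.nb v k).1 = t ∨ (T.nb v k).1 = u) := by
  rcases h with h | h
  · obtain ⟨rfl, rfl⟩ := Prod.mk.inj h
    refine ⟨H.lt, ?_, Or.inl rfl, ?_⟩
    · unfold Tri.shift
      rw [H.nt, H.p2]
      simp only
      rw [H.r3, sub_self]
    · rw [H.nt]; exact Or.inr rfl
  · obtain ⟨rfl, rfl⟩ := Prod.mk.inj h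
    refine ⟨H.lu, ?_, Or.inr rfl, ?_⟩
    · unfold Tri.shift
      rw [H.nu, H.r2]
      simp only
      rw [H.p3, sub_self]
    · rw [H.nu]; exact Or.inl rfl

theorem Flip.sim {T T' : Tri} {t u : Fin 8} {i j : Fin 3} {A B C D : ℝ}
    {e e' : Fin 8 × Fin 3 → Fin 8 × Fin 3} (F : Flip T T' t u i j A B C D e e') :
    Sim T T' (fun v => v = t ∨ v = u) (fun x => x = (t, i) ∨ x = (u, j)) e where
  cons := F.cons
  inner := F.two.inner
  outer := F.outer
  range := by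
    intro v q hv hq
    apply F.two'.cover
    · rcases hv with rfl | rfl
      · have := F.two.range_t.1 hq; tauto
      · have := F.two.range_u.1 hq; tauto
    · rcases hv with rfl | rfl
      · have := F.two.range_t.1 hq; tauto
      · have := F.two.range_u.1 hq; tauto
  same := F.same
  slide := by
    intro h v v' q q' hv hv' hq hq'
    exact F.two'.slide F.c3 F.c4 h v v' q q' hv hv' hq hq'

theorem Flip.sim' {T T' : Tri} {t u : Fin 8} {i j : Fin 3} {A B C D : ℝ}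
    {e e' : Fin 8 × Fin 3 → Fin 8 × Fin 3} (F : Flip T T' t u i j A B C D e e') :
    Sim T' T (fun v => v = t ∨ v = u) (fun x => x = (t, 1) ∨ x = (u, 2)) e' where
  cons := F.cons'
  inner := F.two'.inner
  outer := F.outer'
  range := by
    intro v q hv hq
    apply F.two.cover
    · rcases hv with rfl | rfl
      · have := F.two'.range_t.1 hq; tauto
      · have := F.two'.range_u.1 hq; tauto
    · rcases hv with rfl | rfl
      · have := F.two'.range_t.1 hq; tauto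
      · have := F.two'.range_u.1 hq; tauto
  same := fun v hv => (F.same v hv).symm
  slide := by
    intro h v v' q q' hv hv' hq hq'
    exact F.two.slide F.c1 F.c2 h v v' q q' hv hv' hq hq'

/-- The intersection numbers are invariant under flips. -/
theorem Flip.V {T T' : Tri} {t u : Fin 8} {i j : Fin 3} {A B C D : ℝ}
    {e e' : Fin 8 × Fin 3 → Fin 8 × Fin 3} (F : Flip T T' t u i j A B C D e e') (g : G) :
    T.V g = T'.V g := by
  rw [Tri.flV_eq, Tri.flV_eq]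
  congr 1
  exact Set.Subset.antisymm (fun r h => F.sim.costs h) (fun r h => F.sim'.costs h)

end Pool.Agent.CircleShift.FlipAux
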