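import Pool.Agent.Work.MP_0fc146_gt_helper24.FLIPa

/-!
# The checker for flips
-/

noncomputable section

open scoped Topology

namespace Pool.Agent.CircleShift.FlipAux

/-! ## Positions -/

abbrev Pos := ℤ × ℤ × ℤ
abbrev Wd := List (Fin 4 × Bool)

/-- The value of a symbolic position at the parameter `s`. -/
def rv (x : Pos) (s : ℝ) : ℝ := (x.1 + x.2.1 * √3) / 2 + x.2.2 * s

theorem real_pos (T : STri) (s : ℝ) (t : Fin 8) (i : Fin 3) : (T.real s).pos t i = rv (T.pos t i) s :=
  rfl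

def padd (x y : Pos) : Pos := (x.1 + y.1, x.2.1 + y.2.1, x.2.2 + y.2.2)
def psub (x y : Pos) : Pos := (x.1 - y.1, x.2.1 - y.2.1, x.2.2 - y.2.2)

theorem rv_padd (x y : Pos) (s : ℝ) : rv (padd x y) s = rv x s + rv y s := by
  unfold rv padd; push_cast; ring

theorem rv_psub (x y : Pos) (s : ℝ) : rv (psub x y) s = rv x s - rv y s := by
  unfold rv psub; push_cast; ring

/-- Test for `0 ≤ p + q √3`. -/
def nnT (p q : ℤ) : Bool :=
  (decide (0 ≤ p) && decide (0 ≤ q)) || (decide (0 ≤ p) && decide (3 * (q * q) ≤ p * p)) ||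
    (decide (0 ≤ q) && decide (p * p ≤ 3 * (q * q)))

theorem nnT_spec {p q : ℤ} (h : nnT p q = true) : (0 : ℝ) ≤ p + q * √3 := by
  unfold nnT at h
  simp only [Bool.or_eq_true, Bool.and_eq_true, decide_eq_true_eq] at h
  have h3 : √3 * √3 = (3 : ℝ) := Real.mul_self_sqrt (by norm_num)
  have h0 : (0 : ℝ) ≤ √3 := Real.sqrt_nonneg 3
  rcases h with (⟨h1, h2⟩ | ⟨h1, h2⟩) | ⟨h1, h2⟩
  · have h1' : (0 : ℝ) ≤ p := by exact_mod_cast h1
    have h2' : (0 : ℝ) ≤ q := by exact_mod_cast h2
    positivity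
  · have h1' : (0 : ℝ) ≤ p := by exact_mod_cast h1
    have h2' : (3 : ℝ) * (q * q) ≤ p * p := by exact_mod_cast h2
    have h4 : |q * √3| ≤ |(p : ℝ)| := by
      rw [← sq_le_sq]
      nlinarith
    rw [abs_of_nonneg h1'] at h4
    have := (abs_le.1 h4).1
    linarith
  · have h1' : (0 : ℝ) ≤ q := by exact_mod_cast h1
    have h2' : (p : ℝ) * p ≤ 3 * (q * q) := by exact_mod_cast h2
    have h4 : |(p : ℝ)| ≤ |q * √3| := by
      rw [← sq_le_sq]
      nlinarith
    rw [abs_of_nonneg (mul_nonneg h1' h0)] at h4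
    have := (abs_le.1 h4).1
    linarith

/-- Test for `x ≤ y` at the end points `lo / 2` and `hi / 2`. -/
def leT (lo hi : ℤ × ℤ) (x y : Pos) : Bool :=
  nnT (y.1 - x.1 + (y.2.2 - x.2.2) * lo.1) (y.2.1 - x.2.1 + (y.2.2 - x.2.2) * lo.2) &&
  nnT (y.1 - x.1 + (y.2.2 - x.2.2) * hi.1) (y.2.1 - x.2.1 + (y.2.2 - x.2.2) * hi.2)

theorem leT_spec {lo hi : ℤ × ℤ} {x y : Pos} (h : leT lo hi x y = true) {s : ℝ}
    (hs : s ∈ Set.Icc (z3 lo / 2) (z3 hi / 2)) : rv x s ≤ rv y s := by
  unfold leT at h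
  rw [Bool.and_eq_true] at h
  have h1 := nnT_spec h.1
  have h2 := nnT_spec h.2
  push_cast at h1 h2
  obtain ⟨hs1, hs2⟩ := hs
  unfold z3 at hs1 hs2
  unfold rv
  rcases le_total (x.2.2 : ℝ) (y.2.2 : ℝ) with hk | hk
  · have := mul_le_mul_of_nonneg_left hs1 (sub_nonneg.2 hk)
    nlinarith
  · have := mul_le_mul_of_nonneg_left hs2 (sub_nonneg.2 hk)
    nlinarith

/-! ## Forcing -/

def forceN (n : ℕ) (k : ℕ → Bool) : Bool := match n with
  | 0 => k 0
  | n + 1 => k (n + 1)

theorem forceN_eq (n : ℕ) (k : ℕ → Bool) : forceN n k = k n := by cases n <;> rfl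

def forceZ (n : ℤ) (k : ℤ → Bool) : Bool := match n with
  | .ofNat n => forceN n (fun n => k (.ofNat n))
  | .negSucc n => forceN n (fun n => k (.negSucc n))

theorem forceZ_eq (n : ℤ) (k : ℤ → Bool) : forceZ n k = k n := by
  cases n <;> simp [forceZ, forceN_eq]

def forceP (x : Pos) (k : Pos → Bool) : Bool :=
  forceZ x.1 fun a => forceZ x.2.1 fun b => forceZ x.2.2 fun c => k (a, b, c)

theorem forceP_eq (x : Pos) (k : Pos → Bool) : forceP x k = k x := by
  simp [forceP, forceZ_eq]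

def forceF8 (x : Fin 8) (k : Fin 8 → Bool) : Bool :=
  match x.val with
  | 0 => k ⟨0, by decide⟩
  | 1 => k ⟨1, by decide⟩
  | 2 => k ⟨2, by decide⟩
  | 3 => k ⟨3, by decide⟩
  | 4 => k ⟨4, by decide⟩
  | 5 => k ⟨5, by decide⟩
  | 6 => k ⟨6, by decide⟩
  | _ => k ⟨7, by decide⟩

theorem forceF8_eq (x : Fin 8) (k : Fin 8 → Bool) : forceF8 x k = k x := by
  fin_cases x <;> rfl

def forceF3 (x : Fin 3) (k : Fin 3 → Bool) : Bool :=
  match x.val with
  | 0 => k ⟨0, by decide⟩
  | 1 => k ⟨1, by decide⟩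
  | _ => k ⟨2, by decide⟩

theorem forceF3_eq (x : Fin 3) (k : Fin 3 → Bool) : forceF3 x k = k x := by
  fin_cases x <;> rfl

def forceF4 (x : Fin 4) (k : Fin 4 → Bool) : Bool :=
  match x.val with
  | 0 => k ⟨0, by decide⟩
  | 1 => k ⟨1, by decide⟩
  | 2 => k ⟨2, by decide⟩
  | _ => k ⟨3, by decide⟩

theorem forceF4_eq (x : Fin 4) (k : Fin 4 → Bool) : forceF4 x k = k x := by
  fin_cases x <;> rfl

def forceB (x : Bool) (k : Bool → Bool) : Bool := match x with
  | true => k true
  | false => k false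

theorem forceB_eq (x : Bool) (k : Bool → Bool) : forceB x k = k x := by cases x <;> rfl

def forceE (x : Fin 8 × Fin 3) (k : Fin 8 × Fin 3 → Bool) : Bool :=
  forceF8 x.1 fun a => forceF3 x.2 fun b => k (a, b)

theorem forceE_eq (x : Fin 8 × Fin 3) (k : Fin 8 × Fin 3 → Bool) : forceE x k = k x := by
  simp [forceE, forceF8_eq, forceF3_eq]

def forceW : Wd → (Wd → Bool) → Bool
  | [], k => k []
  | a :: l, k => forceF4 a.1 fun x => forceB a.2 fun b => forceW l fun l => k ((x, b) :: l)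

theorem forceW_eq (w : Wd) (k : Wd → Bool) : forceW w k = k w := by
  induction w generalizing k with
  | nil => rfl
  | cons a l ih => simp [forceW, forceF4_eq, forceB_eq, ih]

section tables

variable {α : Type}

def sel3 (a b c : α) (i : Fin 3) : α := match i.val with
  | 0 => a
  | 1 => b
  | _ => c

def sel8 (a b c d e g h j : α) (i : Fin 8) : α := match i.val with
  | 0 => a
  | 1 => b
  | 2 => c
  | 3 => d
  | 4 => e
  | 5 => g
  | 6 => h
  | _ => j

/-- Force all values of a function on `Fin 3`. -/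
def forceT3 (fa : α → (α → Bool) → Bool) (f : Fin 3 → α) (k : (Fin 3 → α) → Bool) : Bool :=
  fa (f ⟨0, by decide⟩) fun a => fa (f ⟨1, by decide⟩) fun b => fa (f ⟨2, by decide⟩) fun c =>
    k (sel3 a b c)

theorem forceT3_eq (fa : α → (α → Bool) → Bool) (hfa : ∀ x k, fa x k = k x) (f : Fin 3 → α)
    (k : (Fin 3 → α) → Bool) : forceT3 fa f k = k f := by
  unfold forceT3
  rw [hfa, hfa, hfa]
  congr 1
  funext i; fin_cases i <;> rfl

/-- Force all values of a function on `Fin 8`. -/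
def forceT8 (fa : α → (α → Bool) → Bool) (f : Fin 8 → α) (k : (Fin 8 → α) → Bool) : Bool :=
  fa (f ⟨0, by decide⟩) fun a => fa (f ⟨1, by decide⟩) fun b => fa (f ⟨2, by decide⟩) fun c =>
  fa (f ⟨3, by decide⟩) fun d => fa (f ⟨4, by decide⟩) fun e => fa (f ⟨5, by decide⟩) fun g =>
  fa (f ⟨6, by decide⟩) fun h => fa (f ⟨7, by decide⟩) fun i => k (sel8 a b c d e g h i)

theorem forceT8_eq (fa : α → (α → Bool) → Bool) (hfa : ∀ x k, fa x k = k x) (f : Fin 8 → α)
    (k : (Fin 8 → α) → Bool) : forceT8 fa f k = k f := by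
  unfold forceT8
  rw [hfa, hfa, hfa, hfa, hfa, hfa, hfa, hfa]
  congr 1
  funext i; fin_cases i <;> rfl

end tables

/-- Force all data of a symbolic triangulation. -/
def _root_.Pool.Agent.CircleShift.STri.flForce (T : STri) (k : STri → Bool) : Bool :=
  forceT8 (forceT3 forceP) T.pos fun p => forceT8 (forceT3 forceE) T.nb fun n =>
    forceT8 (forceT3 forceW) T.lab fun l => k ⟨p, n, l⟩

theorem _root_.Pool.Agent.CircleShift.STri.flForce_eq (T : STri) (k : STri → Bool) : T.flForce k = k T := by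
  unfold STri.flForce
  rw [forceT8_eq _ (forceT3_eq _ forceP_eq), forceT8_eq _ (forceT3_eq _ forceE_eq),
    forceT8_eq _ (forceT3_eq _ forceW_eq)]

/-! ## Change of frames -/

/-- Change the frame of the triangle `u`. -/
def _root_.Pool.Agent.CircleShift.STri.flReframe (T : STri) (u : Fin 8) (w : Wd) (c : Pos) : STri where
  pos v k := if v = u then padd (T.pos v k) c else T.pos v k
  nb := T.nb
  lab v k := if v = u then
      (if (T.nb v k).1 = u then FreeGroup.reduce (FreeGroup.invRev w ++ T.lab v k ++ w)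
        else FreeGroup.reduce (FreeGroup.invRev w ++ T.lab v k))
    else (if (T.nb v k).1 = u then FreeGroup.reduce (T.lab v k ++ w) else T.lab v k)

theorem mk_reduce (w : Wd) : (FreeGroup.mk (FreeGroup.reduce w) : G) = FreeGroup.mk w :=
  FreeGroup.reduce.self

theorem _root_.Pool.Agent.CircleShift.STri.flReframe_rel (T : STri) (u : Fin 8) (w : Wd) (c : Pos) (s : ℝ) :
    Rel ((T.flReframe u w c).real s) (T.real s) 1 1 (Equiv.refl _) (fun _ => Equiv.refl _)
      (fun v => if v = u then FreeGroup.mk w else 1) (fun v => if v = u then rv c s else 0) where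
  pos := by
    intro t i
    rw [real_pos, real_pos]
    simp only [Equiv.refl_apply, STri.flReframe]
    split_ifs with h
    · rw [rv_padd]; ring
    · ring
  nb := fun t i => rfl
  lab := by
    intro t i
    show (if t = u then FreeGroup.mk w else 1) * FreeGroup.mk ((T.flReframe u w c).lab t i) =
      FreeGroup.mk (T.lab t i) * (if (T.nb t i).1 = u then FreeGroup.mk w else 1)
    have e : (T.flReframe u w c).lab t i = if t = u then
      (if (T.nb t i).1 = u then FreeGroup.reduce (FreeGroup.invRev w ++ T.lab t i ++ w)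
        else FreeGroup.reduce (FreeGroup.invRev w ++ T.lab t i))
      else (if (T.nb t i).1 = u then FreeGroup.reduce (T.lab t i ++ w) else T.lab t i) := rfl
    rw [e]
    by_cases h1 : t = u <;> by_cases h2 : (T.nb t i).1 = u
    · simp only [if_pos h1, if_pos h2]
      rw [mk_reduce, ← FreeGroup.mul_mk,
        ← FreeGroup.mul_mk, ← FreeGroup.inv_mk, ← mul_assoc, ← mul_assoc, mul_inv_cancel, one_mul]
    · simp only [if_pos h1, if_neg h2]
      rw [mk_reduce, ← FreeGroup.mul_mk,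
        ← FreeGroup.inv_mk, ← mul_assoc, mul_inv_cancel, one_mul, mul_one]
    · simp only [if_neg h1, if_pos h2]
      rw [mk_reduce, ← FreeGroup.mul_mk, one_mul]
    · simp only [if_neg h1, if_neg h2]
      rw [one_mul, mul_one]
  shift := by
    intro t i
    show ((T.flReframe u w c).real s).shift t i = 1 * (T.real s).shift t i +
      (if (T.nb t i).1 = u then rv c s else 0) - (if t = u then rv c s else 0)
    unfold Tri.shift
    have e : ∀ v k, ((T.flReframe u w c).real s).pos v k = (T.real s).pos v k +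
        (if v = u then rv c s else 0) := by
      intro v k
      rw [real_pos, real_pos]
      show rv (if v = u then padd (T.pos v k) c else T.pos v k) s = _
      split_ifs with h
      · rw [rv_padd]
      · ring
    rw [e, e]
    show (T.real s).pos (T.nb t i).1 ((T.nb t i).2 + 2) + (if (T.nb t i).1 = u then rv c s else 0) -
      ((T.real s).pos t (i + 1) + (if t = u then rv c s else 0)) =
      1 * ((T.real s).pos (T.nb t i).1 ((T.nb t i).2 + 2) - (T.real s).pos t (i + 1)) +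
      (if (T.nb t i).1 = u then rv c s else 0) - (if t = u then rv c s else 0)
    ring

theorem _root_.Pool.Agent.CircleShift.STri.flReframe_V (T : STri) (u : Fin 8) (w : Wd) (c : Pos) (s : ℝ) (g : G) :
    ((T.flReframe u w c).real s).V g = (T.real s).V g := by
  have h := (T.flReframe_rel u w c s).V one_ne_zero g
  simpa using h

/-! ## Flips -/

/-- The map of the outer half edges. -/
def eFun (t u : Fin 8) (i j : Fin 3) (x : Fin 8 × Fin 3) : Fin 8 × Fin 3 :=
  if x = (t, i + 2) then (t, 2) else if x = (t, i + 1) then (u, 1) else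
  if x = (u, j + 2) then (u, 0) else if x = (u, j + 1) then (t, 0) else x

/-- The inverse of the map of the outer half edges. -/
def sFun (t u : Fin 8) (i j : Fin 3) (x : Fin 8 × Fin 3) : Fin 8 × Fin 3 :=
  if x = (t, 2) then (t, i + 2) else if x = (u, 1) then (t, i + 1) else
  if x = (u, 0) then (u, j + 2) else if x = (t, 0) then (u, j + 1) else x

/-- The flip of the common edge of `t` and `u`. -/
def _root_.Pool.Agent.CircleShift.STri.flFlip (T : STri) (t u : Fin 8) (i j : Fin 3) : STri where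
  pos v k := if v = t then ![T.pos t i, T.pos t (i + 1), T.pos u j] k else
    if v = u then ![T.pos t i, T.pos u j, T.pos t (i + 2)] k else T.pos v k
  nb v k := if (v, k) = (t, 1) then (u, 2) else if (v, k) = (u, 2) then (t, 1) else
    eFun t u i j (T.nb (sFun t u i j (v, k)).1 (sFun t u i j (v, k)).2)
  lab v k := if (v, k) = (t, 1) then [] else if (v, k) = (u, 2) then [] else
    T.lab (sFun t u i j (v, k)).1 (sFun t u i j (v, k)).2

/-- Test for a proposition on all half edges. -/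
def all3 (P : Fin 3 → Bool) : Bool :=
  P ⟨0, by decide⟩ && P ⟨1, by decide⟩ && P ⟨2, by decide⟩

def all8 (P : Fin 8 → Bool) : Bool :=
  P ⟨0, by decide⟩ && P ⟨1, by decide⟩ && P ⟨2, by decide⟩ && P ⟨3, by decide⟩ &&
  P ⟨4, by decide⟩ && P ⟨5, by decide⟩ && P ⟨6, by decide⟩ && P ⟨7, by decide⟩

theorem all3_spec {P : Fin 3 → Bool} (h : all3 P = true) (k : Fin 3) : P k = true := by
  simp only [all3, Bool.and_eq_true] at h
  obtain ⟨⟨h0, h1⟩, h2⟩ := h
  fin_cases k
  exacts [h0, h1, h2]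

theorem all8_spec {P : Fin 8 → Bool} (h : all8 P = true) (k : Fin 8) : P k = true := by
  simp only [all8, Bool.and_eq_true] at h
  obtain ⟨⟨⟨⟨⟨⟨⟨h0, h1⟩, h2⟩, h3⟩, h4⟩, h5⟩, h6⟩, h7⟩ := h
  fin_cases k
  exacts [h0, h1, h2, h3, h4, h5, h6, h7]

def allE (P : Fin 8 → Fin 3 → Bool) : Bool := all8 fun v => all3 fun k => P v k

theorem allE_spec {P : Fin 8 → Fin 3 → Bool} (h : allE P = true) (v : Fin 8) (k : Fin 3) :
    P v k = true := all3_spec (all8_spec h v) k

/-- Equality tests. -/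
def eq8 (a b : Fin 8) : Bool := Nat.beq a.val b.val
def eq3 (a b : Fin 3) : Bool := Nat.beq a.val b.val
def eqE (a b : Fin 8 × Fin 3) : Bool := Nat.beq a.1.val b.1.val && Nat.beq a.2.val b.2.val
def eqZ (a b : ℤ) : Bool := match a, b with
  | .ofNat a, .ofNat b => Nat.beq a b
  | .negSucc a, .negSucc b => Nat.beq a b
  | _, _ => false
def eqP (a b : Pos) : Bool := eqZ a.1 b.1 && eqZ a.2.1 b.2.1 && eqZ a.2.2 b.2.2

theorem natBeq_iff {a b : ℕ} : Nat.beq a b = true ↔ a = b :=
  ⟨Nat.eq_of_beq_eq_true, fun h => h ▸ Nat.beq_refl a⟩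

theorem eq8_iff {a b : Fin 8} : eq8 a b = true ↔ a = b := by
  unfold eq8
  rw [natBeq_iff]
  exact Fin.ext_iff.symm

theorem eq3_iff {a b : Fin 3} : eq3 a b = true ↔ a = b := by
  unfold eq3
  rw [natBeq_iff]
  exact Fin.ext_iff.symm

theorem eqE_iff {a b : Fin 8 × Fin 3} : eqE a b = true ↔ a = b := by
  unfold eqE
  rw [Bool.and_eq_true, natBeq_iff, natBeq_iff, Prod.ext_iff, Fin.ext_iff,
    Fin.ext_iff]

theorem eqZ_spec {a b : ℤ} (h : eqZ a b = true) : a = b := by
  cases a <;> cases b <;> simp only [eqZ] at h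
  · rw [Nat.eq_of_beq_eq_true h]
  · exact absurd h (by simp)
  · exact absurd h (by simp)
  · rw [Nat.eq_of_beq_eq_true h]

theorem eqP_spec {a b : Pos} (h : eqP a b = true) : a = b := by
  unfold eqP at h
  rw [Bool.and_eq_true, Bool.and_eq_true] at h
  exact Prod.ext (eqZ_spec h.1.1) (Prod.ext (eqZ_spec h.1.2) (eqZ_spec h.2))

/-- Consistency test. -/
def consT (T : STri) (v : Fin 8) (k : Fin 3) : Bool :=
  forceE (T.nb v k) fun n =>
  eqP (padd (T.pos v (k + 2)) (psub (T.pos n.1 (n.2 + 2)) (T.pos v (k + 1)))) (T.pos n.1 (n.2 + 1))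

theorem consT_spec {T : STri} (h : ∀ v k, consT T v k = true) (s : ℝ) : (T.real s).flCons := by
  intro v k
  have h1 := h v k
  unfold consT at h1
  rw [forceE_eq] at h1
  have h1 := eqP_spec h1
  unfold Tri.shift
  rw [real_pos, real_pos, real_pos, real_pos]
  show rv (T.pos v (k + 2)) s + (rv (T.pos (T.nb v k).1 ((T.nb v k).2 + 2)) s -
    rv (T.pos v (k + 1)) s) = rv (T.pos (T.nb v k).1 ((T.nb v k).2 + 1)) s
  rw [← h1, rv_padd, rv_psub]

/-- Test for the two triangles. -/
def twoT (T : STri) (t u : Fin 8) (i j : Fin 3) (P X Y R : Pos) : Bool :=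
  eqE (T.nb t i) (u, j) && eqE (T.nb u j) (t, i) && (T.lab t i).isEmpty &&
  (T.lab u j).isEmpty && eqP (T.pos t i) P && eqP (T.pos t (i + 1)) X &&
  eqP (T.pos t (i + 2)) Y && eqP (T.pos u j) R && eqP (T.pos u (j + 1)) Y &&
  eqP (T.pos u (j + 2)) X

theorem twoT_spec {T : STri} {t u : Fin 8} {i j : Fin 3} {P X Y R : Pos}
    (h : twoT T t u i j P X Y R = true) (s : ℝ) :
    TwoTri (T.real s) t u i j (rv P s) (rv X s) (rv Y s) (rv R s) := by
  unfold twoT at h
  simp only [Bool.and_eq_true, eqE_iff, List.isEmpty_iff] at h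
  obtain ⟨⟨⟨⟨⟨⟨⟨⟨⟨h1, h2⟩, h3⟩, h4⟩, h5⟩, h6⟩, h7⟩, h8⟩, h9⟩, h10⟩ := h
  have h5 := eqP_spec h5
  have h6 := eqP_spec h6
  have h7 := eqP_spec h7
  have h8 := eqP_spec h8
  have h9 := eqP_spec h9
  have h10 := eqP_spec h10
  refine ⟨h1, h2, ?_, ?_, ?_, ?_, ?_, ?_, ?_, ?_⟩
  · show FreeGroup.mk (T.lab t i) = 1
    rw [h3]; rfl
  · show FreeGroup.mk (T.lab u j) = 1
    rw [h4]; rfl
  · rw [real_pos, h5]
  · rw [real_pos, h6]
  · rw [real_pos, h7]
  · rw [real_pos, h8]
  · rw [real_pos, h9]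
  · rw [real_pos, h10]

/-- Equality test for letters. -/
def eqL (a b : Fin 4 × Bool) : Bool :=
  match a.2, b.2 with
  | true, true => Nat.beq a.1.val b.1.val
  | false, false => Nat.beq a.1.val b.1.val
  | _, _ => false

/-- Equality test for words. -/
def eqW (l : Wd) : Wd → Bool :=
  List.rec (motive := fun _ => Wd → Bool) (fun m => m.isEmpty)
    (fun a _ ih m => match m with
      | [] => false
      | b :: m => match eqL a b with
        | true => ih m
        | false => false) l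

theorem eqL_spec {a b : Fin 4 × Bool} (h : eqL a b = true) : a = b := by
  rcases a with ⟨a, x⟩
  rcases b with ⟨b, y⟩
  cases x <;> cases y <;> simp only [eqL] at h
  · rw [Fin.ext (Nat.eq_of_beq_eq_true h)]
  · exact absurd h (by simp)
  · exact absurd h (by simp)
  · rw [Fin.ext (Nat.eq_of_beq_eq_true h)]

theorem eqW_spec {l m : Wd} (h : eqW l m = true) : l = m := by
  induction l generalizing m with
  | nil => cases m with
    | nil => rfl
    | cons b m => exact absurd h (by simp [eqW])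
  | cons a l ih => cases m with
    | nil => exact absurd h (by simp [eqW])
    | cons b m =>
      have h1 : (match eqL a b with
        | true => eqW l m
        | false => false) = true := h
      cases h2 : eqL a b with
      | true =>
        rw [h2] at h1
        rw [ih h1, eqL_spec h2]
      | false =>
        rw [h2] at h1
        exact absurd h1 (by simp)

/-- Test for the outer half edges. -/
def outerT (T T' : STri) (t u : Fin 8) (x y : Fin 8 × Fin 3) (e : Fin 8 × Fin 3 → Fin 8 × Fin 3)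
    (v : Fin 8) (k : Fin 3) : Bool :=
  eqE (v, k) x || eqE (v, k) y ||
  forceE (e (v, k)) fun z => forceE (T.nb v k) fun n =>
  ((eq8 z.1 v || ((eq8 z.1 t || eq8 z.1 u) && (eq8 v t || eq8 v u))) &&
    eqP (T'.pos z.1 (z.2 + 1)) (T.pos v (k + 1)) &&
    eqP (T'.pos z.1 (z.2 + 2)) (T.pos v (k + 2)) &&
    eqE (T'.nb z.1 z.2) (e n) &&
    eqW (T'.lab z.1 z.2) (T.lab v k) &&
    !(eqE n x || eqE n y))

theorem outerT_spec {T T' : STri} {t u : Fin 8} {x y : Fin 8 × Fin 3}
    {e : Fin 8 × Fin 3 → Fin 8 × Fin 3} {v : Fin 8} {k : Fin 3}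
    (h : outerT T T' t u x y e v k = true) (s : ℝ) (hv : ¬ ((v, k) = x ∨ (v, k) = y)) :
    ((e (v, k)).1 = v ∨ (((e (v, k)).1 = t ∨ (e (v, k)).1 = u) ∧ (v = t ∨ v = u))) ∧
    (T'.real s).pos (e (v, k)).1 ((e (v, k)).2 + 1) = (T.real s).pos v (k + 1) ∧
    (T'.real s).pos (e (v, k)).1 ((e (v, k)).2 + 2) = (T.real s).pos v (k + 2) ∧
    (T'.real s).nb (e (v, k)).1 (e (v, k)).2 = e ((T.real s).nb v k) ∧
    (T'.real s).lab (e (v, k)).1 (e (v, k)).2 = (T.real s).lab v k ∧
    ¬ ((T.real s).nb v k = x ∨ (T.real s).nb v k = y) := by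
  unfold outerT at h
  rw [forceE_eq, forceE_eq] at h
  simp only [Bool.or_eq_true, Bool.and_eq_true, Bool.not_eq_true',
    Bool.or_eq_false_iff, eqE_iff, eq8_iff] at h
  rcases h with h | h
  · exact absurd h hv
  · obtain ⟨⟨⟨⟨⟨h1, h2⟩, h3⟩, h4⟩, h5⟩, h6, h7⟩ := h
    refine ⟨h1, ?_, ?_, h4, ?_, ?_⟩
    · rw [real_pos, real_pos, eqP_spec h2]
    · rw [real_pos, real_pos, eqP_spec h3]
    · show FreeGroup.mk _ = FreeGroup.mk _
      rw [eqW_spec h5]
    · rintro (h8 | h8)
      · rw [show (T.real s).nb v k = T.nb v k from rfl, ← eqE_iff] at h8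
        rw [h8] at h6; exact absurd h6 (by simp)
      · rw [show (T.real s).nb v k = T.nb v k from rfl, ← eqE_iff] at h8
        rw [h8] at h7; exact absurd h7 (by simp)

/-- One of four inequalities holds. -/
def or4 (lo hi : ℤ × ℤ) (a b c d e f g h : Pos) : Bool :=
  leT lo hi a b || leT lo hi c d || leT lo hi e f || leT lo hi g h

theorem or4_spec {lo hi : ℤ × ℤ} {a b c d e f g h : Pos} (H : or4 lo hi a b c d e f g h = true)
    {s : ℝ} (hs : s ∈ Set.Icc (z3 lo / 2) (z3 hi / 2)) :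
    rv a s ≤ rv b s ∨ rv c s ≤ rv d s ∨ rv e s ≤ rv f s ∨ rv g s ≤ rv h s := by
  unfold or4 at H
  simp only [Bool.or_eq_true] at H
  rcases H with ((H | H) | H) | H
  · exact Or.inl (leT_spec H hs)
  · exact Or.inr (Or.inl (leT_spec H hs))
  · exact Or.inr (Or.inr (Or.inl (leT_spec H hs)))
  · exact Or.inr (Or.inr (Or.inr (leT_spec H hs)))

/-- Test for a flip. -/
def flipT (lo hi : ℤ × ℤ) (T T' : STri) (t u : Fin 8) (i j : Fin 3) (A B C D : Pos)
    (e e' : Fin 8 → Fin 3 → Fin 8 × Fin 3) : Bool :=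
  twoT T t u i j A B D C && twoT T' t u 1 2 B C A D &&
  or4 lo hi A B A D C B C D && or4 lo hi B A D A B C D C && or4 lo hi B C B A D C D A &&
  or4 lo hi C B A B C D A D &&
  allE (fun v k => consT T v k && consT T' v k &&
    (eq8 v t || eq8 v u || eqP (T'.pos v k) (T.pos v k)) &&
    outerT T T' t u (t, i) (u, j) (fun x => e x.1 x.2) v k &&
    outerT T' T t u (t, 1) (u, 2) (fun x => e' x.1 x.2) v k)

theorem flipT_spec {lo hi : ℤ × ℤ} {T T' : STri} {t u : Fin 8} {i j : Fin 3} {A B C D : Pos}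
    {e e' : Fin 8 → Fin 3 → Fin 8 × Fin 3}
    (h : flipT lo hi T T' t u i j A B C D e e' = true) {s : ℝ}
    (hs : s ∈ Set.Icc (z3 lo / 2) (z3 hi / 2)) (g : G) :
    (T.real s).V g = (T'.real s).V g := by
  unfold flipT at h
  simp only [Bool.and_eq_true] at h
  obtain ⟨⟨⟨⟨⟨⟨h1, h2⟩, h3⟩, h4⟩, h5⟩, h6⟩, h7⟩ := h
  have h8 := fun v k => allE_spec h7 v k
  simp only [Bool.and_eq_true, Bool.or_eq_true, eq8_iff] at h8
  have F : Flip (T.real s) (T'.real s) t u i j (rv A s) (rv B s) (rv C s) (rv D s)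
      (fun x => e x.1 x.2) (fun x => e' x.1 x.2) := by
    refine ⟨consT_spec (fun v k => (h8 v k).1.1.1.1) s, consT_spec (fun v k => (h8 v k).1.1.1.2) s,
      twoT_spec h1 s, twoT_spec h2 s, or4_spec h3 hs, or4_spec h4 hs, or4_spec h5 hs,
      or4_spec h6 hs, ?_, ?_, ?_⟩
    · intro v hv
      funext k
      rcases (h8 v k).1.1.2 with h9 | h9
      · exact absurd h9 hv
      · rw [real_pos, real_pos, eqP_spec h9]
    · intro v k hv
      exact outerT_spec (h8 v k).1.2 s hv
    · intro v k hv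
      exact outerT_spec (h8 v k).2 s hv
  exact F.V g

/-- Run a list of flips. -/
def runT (lo hi : ℤ × ℤ) : List (Fin 8 × Fin 3) → STri → (STri → Bool) → Bool
  | [], T, k => k T
  | x :: l, T, k =>
    forceE x fun x => forceE (T.nb x.1 x.2) fun y =>
    (T.flReframe y.1 (FreeGroup.invRev (T.lab x.1 x.2))
      (psub (T.pos x.1 (x.2 + 2)) (T.pos y.1 (y.2 + 1)))).flForce fun T₁ =>
    (T₁.flFlip x.1 y.1 x.2 y.2).flForce fun T₂ =>
    forceT8 (forceT3 forceE) (fun v k => eFun x.1 y.1 x.2 y.2 (v, k)) fun e =>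
    forceT8 (forceT3 forceE) (fun v k => sFun x.1 y.1 x.2 y.2 (v, k)) fun e' =>
    flipT lo hi T₁ T₂ x.1 y.1 x.2 y.2 (T₁.pos x.1 x.2) (T₁.pos x.1 (x.2 + 1)) (T₁.pos y.1 y.2)
      (T₁.pos x.1 (x.2 + 2)) e e' && runT lo hi l T₂ k

theorem runT_spec {lo hi : ℤ × ℤ} {l : List (Fin 8 × Fin 3)} {T : STri} {k : STri → Bool}
    (h : runT lo hi l T k = true) : ∃ T', k T' = true ∧
      ∀ s ∈ Set.Icc (z3 lo / 2) (z3 hi / 2), ∀ g, (T.real s).V g = (T'.real s).V g := by
  induction l generalizing T with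
  | nil => exact ⟨T, h, fun s _ g => rfl⟩
  | cons x l ih =>
    unfold runT at h
    rw [forceE_eq, forceE_eq, STri.flForce_eq, STri.flForce_eq,
      forceT8_eq _ (forceT3_eq _ forceE_eq), forceT8_eq _ (forceT3_eq _ forceE_eq),
      Bool.and_eq_true] at h
    obtain ⟨T', h1, h2⟩ := ih h.2
    refine ⟨T', h1, ?_⟩
    intro s hs g
    rw [← h2 s hs g, ← flipT_spec h.1 hs g, STri.flReframe_V]

/-! ## Final comparison -/

/-- Test for an identification by rotations of triangles. -/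
def relT (T B : STri) (scale : Pos → Pos) (f : Fin 8 → Fin 8) (r : Fin 8 → Fin 3) (κ : Fin 8 → Wd)
    (τ : Fin 4 → Wd) : Bool :=
  decide (Function.Injective f) &&
  allE (fun t i =>
    eqP (psub (T.pos (f t) (i + r t)) (scale (B.pos t i)))
      (psub (T.pos (f t) (0 + r t)) (scale (B.pos t 0))) &&
    eqE (T.nb (f t) (i + r t)) (f (B.nb t i).1, (B.nb t i).2 + r (B.nb t i).1) &&
    eqW (FreeGroup.reduce (κ t ++ T.lab (f t) (i + r t)))
      (FreeGroup.reduce (substW τ (B.lab t i) ++ κ (B.nb t i).1)))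

theorem relT_spec {T B : STri} {scale : Pos → Pos} {f : Fin 8 → Fin 8} {r : Fin 8 → Fin 3}
    {κ : Fin 8 → Wd} {τ : Fin 4 → Wd} (h : relT T B scale f r κ τ = true) {s s' μ : ℝ}
    (hμ : μ ≠ 0) (hsc : ∀ x, rv (scale x) s = μ * rv x s') {σ : MulAut G}
    (hσ : ∀ w, σ (FreeGroup.mk w) = FreeGroup.mk (substW τ w)) (g : G) :
    (T.real s).V (σ g) = |μ| * (B.real s').V g := by
  unfold relT at h
  simp only [Bool.and_eq_true, decide_eq_true_eq] at h
  obtain ⟨h0, h1⟩ := h
  have h2 := fun v k => allE_spec h1 v k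
  simp only [Bool.and_eq_true, eqE_iff] at h2
  let m : Fin 8 ≃ Fin 8 := Equiv.ofBijective f (Finite.injective_iff_bijective.1 h0)
  have hm : ∀ t, m t = f t := fun t => rfl
  have hpos : ∀ t i, (T.real s).pos (m t) (Equiv.addRight (r t) i) = μ * (B.real s').pos t i +
      (rv (T.pos (f t) (0 + r t)) s - μ * rv (B.pos t 0) s') := by
    intro t i
    have h3 := congrArg (fun x => rv x s) (eqP_spec (h2 t i).1.1)
    simp only [rv_psub, hsc] at h3
    rw [real_pos, real_pos, hm, Equiv.coe_addRight]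
    linarith
  have R : Rel (T.real s) (B.real s') μ σ m (fun t => Equiv.addRight (r t))
      (fun t => FreeGroup.mk (κ t))
      (fun t => rv (T.pos (f t) (0 + r t)) s - μ * rv (B.pos t 0) s') := by
    refine ⟨hpos, fun t i => (h2 t i).1.2, ?_, ?_⟩
    · intro t i
      show FreeGroup.mk (κ t) * FreeGroup.mk (T.lab (f t) (i + r t)) =
        σ (FreeGroup.mk (B.lab t i)) * FreeGroup.mk (κ (B.nb t i).1)
      rw [hσ, FreeGroup.mul_mk, FreeGroup.mul_mk]
      exact FreeGroup.reduce.exact (eqW_spec (h2 t i).2)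
    · intro t i
      have h3 : (T.real s).nb (m t) (Equiv.addRight (r t) i) =
        (m ((B.real s').nb t i).1, (Equiv.addRight (r ((B.real s').nb t i).1))
          ((B.real s').nb t i).2) := (h2 t i).1.2
      unfold Tri.shift
      rw [h3]
      simp only
      have e1 : (Equiv.addRight (r ((B.real s').nb t i).1)) ((B.real s').nb t i).2 + 2 =
          (Equiv.addRight (r ((B.real s').nb t i).1)) (((B.real s').nb t i).2 + 2) := by
        simp only [Equiv.coe_addRight]; abel
      have e2 : (Equiv.addRight (r t)) i + 1 = (Equiv.addRight (r t)) (i + 1) := by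
        simp only [Equiv.coe_addRight]; abel
      rw [e1, e2, hpos, hpos]
      ring
  exact R.V hμ g

end Pool.Agent.CircleShift.FlipAux
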